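import Pool.Agent.LibTA98.Defs
import Pool.Agent.LibCSA98.Defs
set_option autoImplicit false
namespace Pool.Agent.LibTA98
open Pool.Agent.LibCSA98 (Reiter l1)

private noncomputable def act_ev {G : Type} (f : G →₀ ℝ) (v : G → ℝ) : ℝ :=
  f.sum fun x a => a * v x

private theorem act_ev_map {G : Type} (f : G →₀ ℝ) (φ : G → G) (v : G → ℝ) :
    act_ev (f.mapDomain φ) v = act_ev f (fun x => v (φ x)) := by
  unfold act_ev
  rw [Finsupp.sum_mapDomain_index]
  · intro b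
    rw [zero_mul]
  · intro b m₁ m₂
    rw [add_mul]

private theorem act_ev_sub {G : Type} (f g : G →₀ ℝ) (v : G → ℝ) :
    act_ev (f - g) v = act_ev f v - act_ev g v := by
  unfold act_ev
  rw [Finsupp.sum_sub_index]
  intro a b₁ b₂
  rw [sub_mul]

private theorem act_ev_abs {G : Type} (f : G →₀ ℝ) (v : G → ℝ) (hv : ∀ x, |v x| ≤ 1) :
    |act_ev f v| ≤ l1 f := by
  unfold act_ev l1 Finsupp.sum
  refine (Finset.abs_sum_le_sum_abs _ _).trans (Finset.sum_le_sum fun x _ => ?_)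
  rw [abs_mul]
  exact mul_le_of_le_one_right (abs_nonneg _) (hv x)

private theorem act_ev_mono {G : Type} (f : G →₀ ℝ) (hf : ∀ x, 0 ≤ f x) (v w : G → ℝ)
    (h : ∀ x, v x ≤ w x) : act_ev f v ≤ act_ev f w := by
  unfold act_ev Finsupp.sum
  exact Finset.sum_le_sum fun x _ => mul_le_mul_of_nonneg_left (h x) (hf x)

private theorem act_ev_add {G : Type} (f : G →₀ ℝ) (v w : G → ℝ) :
    act_ev f (fun x => v x + w x) = act_ev f v + act_ev f w := by
  unfold act_ev Finsupp.sum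
  rw [← Finset.sum_add_distrib]
  exact Finset.sum_congr rfl fun x _ => mul_add _ _ _

private theorem act_ev_one_sub {G : Type} (f : G →₀ ℝ) (hf : ∀ x, 0 ≤ f x) (v : G → ℝ) :
    act_ev f (fun x => 1 - v x) = l1 f - act_ev f v := by
  unfold act_ev l1 Finsupp.sum
  rw [← Finset.sum_sub_distrib]
  refine Finset.sum_congr rfl fun x _ => ?_
  show f x * (1 - v x) = |f x| - f x * v x
  rw [abs_of_nonneg (hf x), mul_sub, mul_one]

private theorem act_ev_one {G : Type} (f : G →₀ ℝ) (hf : ∀ x, 0 ≤ f x) :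
    act_ev f (fun _ => 1) = l1 f := by
  unfold act_ev l1 Finsupp.sum
  refine Finset.sum_congr rfl fun x _ => ?_
  show f x * 1 = |f x|
  rw [abs_of_nonneg (hf x), mul_one]

private theorem act_ev_sum {G : Type} (f : G →₀ ℝ) (H : Finset G) (v : G → G → ℝ) :
    act_ev f (fun x => ∑ h ∈ H, v h x) = ∑ h ∈ H, act_ev f (v h) := by
  unfold act_ev Finsupp.sum
  rw [Finset.sum_comm]
  exact Finset.sum_congr rfl fun x _ => Finset.mul_sum _ _ _

/-- Almost invariant measures.  Fix `p : X`, let `f` be a Reiter function for the set of `t`, `t⁻¹`, the `h` and `h⁻¹`, `h ∈ H`, and `ε = 1 / (4 (|H| + 1))`, and let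
`m Y = ∑ x with x • p ∈ Y, f x`.  `m N + m (t⁻¹ B) ≥ 1`, `m (t⁻¹ B) ≤ m B + ε`, `N` and `B` are disjoint, so `m (N ∪ B) ≥ 1 - ε`, and `m (h⁻¹ (N ∪ B)) ≥ 1 - 2 ε`; the intersection of these sets over
`h ∈ H` has positive measure. -/
theorem reiter_action {G : Type} [Group G] (hR : Reiter G) {X : Type} [MulAction G X]
    [Nonempty X] (N B : Set X) (hNB : Disjoint N B) (t : G) (ht : ∀ y : X, y ∈ N ∨ t • y ∈ B)
    (H : Finset G) : ∃ y : X, ∀ h ∈ H, h • y ∈ N ∪ B := by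
  classical
  by_contra hcon
  push Not at hcon
  obtain ⟨p⟩ := ‹Nonempty X›
  have hc0 : (0 : ℝ) ≤ (H.card : ℝ) := Nat.cast_nonneg _
  obtain ⟨ε, hε⟩ : ∃ ε : ℝ, ε = 1 / (4 * ((H.card : ℝ) + 1)) := ⟨_, rfl⟩
  have hε0 : 0 < ε := by
    rw [hε]
    positivity
  obtain ⟨f, hf0, hf1, hfS⟩ := hR (insert t H) ε hε0
  obtain ⟨v, hv⟩ : ∃ v : Set X → G → ℝ, v = fun Y x => if x • p ∈ Y then 1 else 0 := ⟨_, rfl⟩
  have hv1 : ∀ Y x, x • p ∈ Y → v Y x = 1 := by
    intro Y x h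
    rw [hv]
    exact if_pos h
  have hv0 : ∀ Y x, x • p ∉ Y → v Y x = 0 := by
    intro Y x h
    rw [hv]
    exact if_neg h
  have hvn : ∀ Y x, 0 ≤ v Y x := by
    intro Y x
    by_cases h : x • p ∈ Y
    · rw [hv1 Y x h]
      exact zero_le_one
    · rw [hv0 Y x h]
  have hvl : ∀ Y x, v Y x ≤ 1 := by
    intro Y x
    by_cases h : x • p ∈ Y
    · rw [hv1 Y x h]
    · rw [hv0 Y x h]
      exact zero_le_one
  have hva : ∀ Y x, |v Y x| ≤ 1 := fun Y x => by
    rw [abs_of_nonneg (hvn Y x)]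
    exact hvl Y x
  have hinv : ∀ s ∈ insert t H, ∀ Y, |act_ev f (fun x => v Y (s * x)) - act_ev f (v Y)| ≤ ε := by
    intro s hs Y
    rw [← act_ev_map f (s * ·) (v Y), ← act_ev_sub]
    exact (act_ev_abs _ _ (hva Y)).trans (hfS s hs)
  have hU : ∀ x, v N x + v B x ≤ v (N ∪ B) x := by
    intro x
    by_cases h1 : x • p ∈ N
    · have h2 : x • p ∉ B := Set.disjoint_left.1 hNB h1
      rw [hv1 _ _ h1, hv0 _ _ h2, hv1 _ _ (Or.inl h1), add_zero]
    · rw [hv0 _ _ h1, zero_add]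
      by_cases h2 : x • p ∈ B
      · rw [hv1 _ _ h2, hv1 _ _ (Or.inr h2)]
      · rw [hv0 _ _ h2]
        exact hvn _ _
  have hT : ∀ x, (1 : ℝ) ≤ v N x + v B (t * x) := by
    intro x
    rcases ht (x • p) with h | h
    · rw [hv1 _ _ h]
      have := hvn B (t * x)
      linarith
    · rw [← mul_smul] at h
      rw [hv1 _ _ h]
      have := hvn N x
      linarith
  have h1 := act_ev_mono f hf0 _ _ hT
  rw [act_ev_one f hf0, act_ev_add, hf1] at h1
  have h2 := act_ev_mono f hf0 _ _ hU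
  rw [act_ev_add] at h2
  have h3 := (abs_le.1 (hinv t (Finset.mem_insert_self _ _) B)).2
  have hNBm : 1 - ε ≤ act_ev f (v (N ∪ B)) := by linarith
  have hH : ∀ x, (1 : ℝ) ≤ ∑ h ∈ H, (1 - v (N ∪ B) (h * x)) := by
    intro x
    obtain ⟨h, hh, hhy⟩ := hcon (x • p)
    rw [← mul_smul] at hhy
    have h4 : (1 : ℝ) - v (N ∪ B) (h * x) ≤ ∑ h ∈ H, (1 - v (N ∪ B) (h * x)) :=
      Finset.single_le_sum (f := fun h => (1 : ℝ) - v (N ∪ B) (h * x))
        (fun h _ => sub_nonneg.2 (hvl (N ∪ B) (h * x))) hh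
    rw [hv0 _ _ hhy, sub_zero] at h4
    exact h4
  have h5 := act_ev_mono f hf0 _ _ hH
  rw [act_ev_one f hf0, act_ev_sum f H (fun h x => 1 - v (N ∪ B) (h * x)), hf1] at h5
  have h6 : ∑ h ∈ H, act_ev f (fun x => 1 - v (N ∪ B) (h * x)) ≤ ∑ _h ∈ H, 2 * ε := by
    refine Finset.sum_le_sum fun h hh => ?_
    rw [act_ev_one_sub f hf0, hf1]
    have h7 := (abs_le.1 (hinv h (Finset.mem_insert_of_mem hh) (N ∪ B))).1
    linarith
  rw [Finset.sum_const, nsmul_eq_mul] at h6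
  have h8 : (H.card : ℝ) * (2 * ε) < 1 := by
    have h9 : ε * (4 * ((H.card : ℝ) + 1)) = 1 := by
      rw [hε]
      exact one_div_mul_cancel (by positivity)
    nlinarith
  linarith

end Pool.Agent.LibTA98
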