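import Pool.Agent.LibTA98.TorsCase
set_option autoImplicit false
namespace Pool.Agent.LibTA98
open scoped Matrix.Norms.L2Operator

/-- the Kronecker product of `π g` and its conjugate -/
private noncomputable def adK {d : ℕ} (U : Matrix (Fin d) (Fin d) ℂ) :
    Matrix (Fin d × Fin d) (Fin d × Fin d) ℂ :=
  Matrix.kroneckerMap (· * ·) U (U.map (starRingEnd ℂ))

private theorem adK_apply {d : ℕ} (U : Matrix (Fin d) (Fin d) ℂ) (i j k l : Fin d) :
    adK U (i, k) (j, l) = U i j * (starRingEnd ℂ) (U k l) := rfl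

private theorem adK_one {d : ℕ} : adK (1 : Matrix (Fin d) (Fin d) ℂ) = 1 := by
  unfold adK
  rw [show (1 : Matrix (Fin d) (Fin d) ℂ).map (starRingEnd ℂ) = 1 from
    Matrix.map_one _ (map_zero _) (map_one _)]
  exact Matrix.one_kronecker_one

private theorem adK_mul {d : ℕ} (U V : Matrix (Fin d) (Fin d) ℂ) :
    adK (U * V) = adK U * adK V := by
  unfold adK
  rw [show (U * V).map (starRingEnd ℂ) = U.map (starRingEnd ℂ) * V.map (starRingEnd ℂ) from
    Matrix.map_mul]
  exact Matrix.mul_kronecker_mul _ _ _ _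

private theorem adK_pow {d : ℕ} (U : Matrix (Fin d) (Fin d) ℂ) (k : ℕ) :
    adK (U ^ k) = adK U ^ k := by
  induction k with
  | zero => rw [pow_zero, pow_zero, adK_one]
  | succ k ih => rw [pow_succ, pow_succ, adK_mul, ih]

private theorem adK_star {d : ℕ} (U : Matrix (Fin d) (Fin d) ℂ) :
    star (adK U) = adK (star U) := by
  ext ⟨i, k⟩ ⟨j, l⟩
  rw [Matrix.star_apply, adK_apply, adK_apply, Matrix.star_apply, Matrix.star_apply, star_mul']
  rfl

private noncomputable def adHom {G : Type} [Group G] {d : ℕ}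
    (π : G →* unitary (Matrix (Fin d) (Fin d) ℂ)) :
    G →* unitary (Matrix (Fin d × Fin d) (Fin d × Fin d) ℂ) where
  toFun g := ⟨adK (π g : Matrix (Fin d) (Fin d) ℂ), by
    rw [Unitary.mem_iff]
    constructor
    · rw [adK_star, ← adK_mul, Unitary.coe_star_mul_self, adK_one]
    · rw [adK_star, ← adK_mul, (Unitary.mem_iff.1 (π g).2).2, adK_one]⟩
  map_one' := by
    apply Subtype.ext
    show adK (π 1 : Matrix (Fin d) (Fin d) ℂ) = 1
    rw [map_one]
    exact adK_one
  map_mul' a b := by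
    apply Subtype.ext
    show adK (π (a * b) : Matrix (Fin d) (Fin d) ℂ) = adK (π a : Matrix (Fin d) (Fin d) ℂ) *
      adK (π b : Matrix (Fin d) (Fin d) ℂ)
    rw [map_mul]
    exact adK_mul _ _

private theorem scalar_of_adK {d : ℕ} (hd : 0 < d) (U : Matrix (Fin d) (Fin d) ℂ)
    (h : adK U = 1) : ∃ c : ℂ, U = c • 1 := by
  have key : ∀ i j k l, U i j * (starRingEnd ℂ) (U k l) =
      if (i = j ∧ k = l) then 1 else 0 := by
    intro i j k l
    have := congrFun (congrFun h (i, k)) (j, l)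
    rw [adK_apply, Matrix.one_apply] at this
    rw [this]
    simp only [Prod.mk.injEq]
  refine ⟨U ⟨0, hd⟩ ⟨0, hd⟩, ?_⟩
  ext i j
  rw [Matrix.smul_apply, Matrix.one_apply, smul_eq_mul]
  by_cases hij : i = j
  · subst hij
    rw [if_pos rfl, mul_one]
    have h1 := key i i i i
    have h2 := key ⟨0, hd⟩ ⟨0, hd⟩ i i
    simp only [and_self, if_true] at h1 h2
    have hne : (starRingEnd ℂ) (U i i) ≠ 0 := by
      intro h0
      rw [h0, mul_zero] at h1
      exact zero_ne_one h1
    exact mul_right_cancel₀ hne (h1.trans h2.symm)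
  · rw [if_neg hij, mul_zero]
    have h1 := key i j i j
    rw [if_neg (by tauto), mul_eq_zero] at h1
    rcases h1 with h1 | h1
    · exact h1
    · simpa using h1

private theorem adK_scalar {d : ℕ} (c : ℂ) :
    adK (c • (1 : Matrix (Fin d) (Fin d) ℂ)) = (c * (starRingEnd ℂ) c) • 1 := by
  ext ⟨i, k⟩ ⟨j, l⟩
  rw [adK_apply, Matrix.smul_apply, Matrix.smul_apply, Matrix.smul_apply, Matrix.one_apply,
    Matrix.one_apply, Matrix.one_apply]
  by_cases h1 : i = j <;> by_cases h2 : k = l <;> simp [h1, h2, Prod.ext_iff]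

private theorem scalar_unitary {d : ℕ} (hd : 0 < d) (U : Matrix (Fin d) (Fin d) ℂ)
    (hU : star U * U = 1) (c : ℂ) (h : U = c • 1) : c * (starRingEnd ℂ) c = 1 := by
  subst h
  have := congrFun (congrFun hU ⟨0, hd⟩) ⟨0, hd⟩
  rw [star_smul, star_one, smul_mul_smul_comm, mul_one, Matrix.smul_apply, Matrix.one_apply_eq,
    smul_eq_mul, mul_one] at this
  rw [mul_comm]
  exact this

/-- Projective torsion.  Let `θ g = π g ⊗ conj (π g)` (Kronecker product, index `Fin d × Fin d`): unitary, `θ g = 1` iff `π g` is scalar (so `θ g ^ k = 1` if `π g ^ k` is scalar).  `near_commute_torsion` and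
`va_of_near` (LibCSA98/VaEA) give a normal finite index subgroup `P` on which `θ` is commutative, i.e. `π (x * y * x⁻¹ * y⁻¹)` is scalar for `x`, `y ∈ P`.  If all the `π x`, `x ∈ P`, are scalar
every line is `P`-invariant, a contradiction to `StrIrr` as `2 ≤ d`; otherwise `Pool.Agent.LibCS44.invariant_of_normal` (LibCS44/VAc2) gives an invariant subspace of a finite index
subgroup, a contradiction again. -/
theorem torsion_case {G : Type} [Group G] {d : ℕ} (hd : 2 ≤ d)
    (π : G →* unitary (Matrix (Fin d) (Fin d) ℂ))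
    (h : ∀ g, ∃ (k : ℕ) (c : ℂ), 0 < k ∧ (π g : Matrix (Fin d) (Fin d) ℂ) ^ k = c • 1) :
    ¬ StrIrr ((unitary (Matrix (Fin d) (Fin d) ℂ)).subtype.comp π) := by
  classical
  intro hirr
  have hd0 : 0 < d := by omega
  have ht : ∀ g, ∃ k : ℕ, 0 < k ∧
      (adHom π g : Matrix (Fin d × Fin d) (Fin d × Fin d) ℂ) ^ k = 1 := by
    intro g
    obtain ⟨k, c, hk, hc⟩ := h g
    refine ⟨k, hk, ?_⟩
    show adK (π g : Matrix (Fin d) (Fin d) ℂ) ^ k = 1
    rw [← adK_pow, hc, adK_scalar]
    have h1 : star ((π g : Matrix (Fin d) (Fin d) ℂ) ^ k) * (π g : Matrix (Fin d) (Fin d) ℂ) ^ k = 1 := by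
      have := Unitary.coe_star_mul_self ((π g) ^ k)
      simpa using this
    rw [scalar_unitary hd0 _ h1 c hc, one_smul]
  obtain ⟨P, hPn, hPf, hPc⟩ := Pool.Agent.LibCSA98.va_of_near (adHom π)
    (fun a b ha hb => near_commute_torsion (adHom π) ht a b ha hb)
  have hcomm : ∀ x ∈ P, ∀ y ∈ P, ∃ c : ℂ,
      (π (x * y * x⁻¹ * y⁻¹) : Matrix (Fin d) (Fin d) ℂ) = c • 1 := by
    intro x hx y hy
    apply scalar_of_adK hd0
    have h1 : adHom π (x * y * x⁻¹ * y⁻¹) = 1 := by
      rw [map_mul, map_mul, map_mul, hPc x hx y hy, map_inv, map_inv]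
      group
    exact congrArg Subtype.val h1
  by_cases hs : ∃ a ∈ P, ∀ c : ℂ, (π a : Matrix (Fin d) (Fin d) ℂ) ≠ c • 1
  · obtain ⟨a, haP, ha⟩ := hs
    let Φ := Matrix.toEuclideanCLM (n := Fin d) (𝕜 := ℂ)
    let ρ : G →* (EuclideanSpace ℂ (Fin d) →ₗ[ℂ] EuclideanSpace ℂ (Fin d)) :=
      { toFun := fun s => (Φ (π s : Matrix (Fin d) (Fin d) ℂ) :
          EuclideanSpace ℂ (Fin d) →ₗ[ℂ] EuclideanSpace ℂ (Fin d))
        map_one' := by
          ext x : 1
          simp
        map_mul' := by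
          intro a b
          ext x : 1
          simp }
    have hρ : ∀ s : G, ∀ x, ρ s x = Φ (π s : Matrix (Fin d) (Fin d) ℂ) x := fun s x => rfl
    have hρs : ∀ (s : G) (c : ℂ), (π s : Matrix (Fin d) (Fin d) ℂ) = c • 1 → ρ s = c • 1 := by
      intro s c hc
      ext x : 1
      rw [hρ, hc, map_smul, map_one]
      rfl
    have hρs' : ∀ (s : G) (c : ℂ), ρ s = c • 1 → (π s : Matrix (Fin d) (Fin d) ℂ) = c • 1 := by
      intro s c hc
      apply Φ.injective
      show Φ (π s : Matrix (Fin d) (Fin d) ℂ) = Φ (c • (1 : Matrix (Fin d) (Fin d) ℂ))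
      rw [show Φ (c • (1 : Matrix (Fin d) (Fin d) ℂ)) = c • Φ 1 from map_smul Φ c 1, map_one]
      ext x : 1
      have := congrArg (fun T : EuclideanSpace ℂ (Fin d) →ₗ[ℂ] EuclideanSpace ℂ (Fin d) => T x) hc
      exact this
    have hu : ∀ g x y, inner ℂ (ρ g x) (ρ g y) = inner ℂ x y := by
      intro g x y
      rw [hρ, hρ]
      have h1 : star (Φ (π g : Matrix (Fin d) (Fin d) ℂ)) * Φ (π g : Matrix (Fin d) (Fin d) ℂ) = 1 := by
        rw [← map_star, ← map_mul, Unitary.coe_star_mul_self, map_one]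
      rw [← ContinuousLinearMap.adjoint_inner_right, ← ContinuousLinearMap.star_eq_adjoint,
        ← mul_apply_eq_comp, h1, one_apply_eq_self]
    have hV : 0 < Module.finrank ℂ (EuclideanSpace ℂ (Fin d)) := by
      rw [finrank_euclideanSpace_fin]; exact hd0
    obtain ⟨Q, W, hQ, hW0, hW1, hWQ⟩ := Pool.Agent.LibCS44.invariant_of_normal ρ hu hV P
      (fun x hx y hy => by
        obtain ⟨c, hc⟩ := hcomm x hx y hy
        exact ⟨c, hρs _ c hc⟩)
      ⟨a, haP, fun c hc => ha c (hρs' a c hc)⟩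
    let e := WithLp.linearEquiv 2 ℂ (Fin d → ℂ)
    have h1 := hirr Q hQ (W.map (e : EuclideanSpace ℂ (Fin d) →ₗ[ℂ] (Fin d → ℂ))) (by
      rintro g hg _ ⟨w, hw, rfl⟩
      exact ⟨ρ g w, hWQ g hg w hw, rfl⟩)
    rcases h1 with h1 | h1
    · apply hW0
      rw [Submodule.map_eq_bot_iff] at h1
      exact h1
    · apply hW1
      rw [Submodule.eq_top_iff']
      intro x
      have h2 : e x ∈ W.map (e : EuclideanSpace ℂ (Fin d) →ₗ[ℂ] (Fin d → ℂ)) := by
        rw [h1]; exact Submodule.mem_top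
      obtain ⟨w, hw, hwx⟩ := h2
      have h3 : w = x := e.injective hwx
      rw [← h3]; exact hw
  · push Not at hs
    let v : Fin d → ℂ := Pi.single ⟨0, hd0⟩ 1
    have h1 := hirr P hPf (Submodule.span ℂ {v}) (by
      intro g hg w hw
      obtain ⟨c, hc⟩ := hs g hg
      have : (((unitary (Matrix (Fin d) (Fin d) ℂ)).subtype.comp π) g) = c • 1 := hc
      rw [this, Matrix.smul_mulVec, Matrix.one_mulVec]
      exact Submodule.smul_mem _ _ hw)
    rcases h1 with h1 | h1
    · rw [Submodule.span_singleton_eq_bot] at h1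
      have := congrFun h1 ⟨0, hd0⟩
      simp [v] at this
    · have h2 : (Pi.single ⟨1, by omega⟩ 1 : Fin d → ℂ) ∈ Submodule.span ℂ {v} := by
        rw [h1]; exact Submodule.mem_top
      rw [Submodule.mem_span_singleton] at h2
      obtain ⟨c, hc⟩ := h2
      have := congrFun hc ⟨1, by omega⟩
      simp [v, Fin.ext_iff] at this

end Pool.Agent.LibTA98
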