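import Pool.Agent.LibTA98.BurnIrr
import Pool.Agent.LibCSA98.Conv
set_option autoImplicit false
namespace Pool.Agent.LibTA98
open Pool.Agent.LibCSA98 (IsUnRep)

private theorem bf_finite_range {G A B : Type*} (f : G → A) (g : G → B)
    (h : ∀ x y, f x = f y → g x = g y) (hf : (Set.range f).Finite) : (Set.range g).Finite := by
  classical
  by_cases hG : Nonempty G
  · refine (hf.image fun a => g (Function.invFun f a)).subset ?_
    rintro _ ⟨x, rfl⟩
    refine ⟨f x, ⟨x, rfl⟩, ?_⟩
    exact h _ _ (Function.invFun_eq ⟨x, rfl⟩)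
  · have : IsEmpty G := not_nonempty_iff.1 hG
    rw [Set.range_eq_empty]
    exact Set.finite_empty

private theorem bf_restrict {G : Type} [Group G] {V : Type}
    [NormedAddCommGroup V] [InnerProductSpace ℂ V]
    (ρ : G →* (V →ₗ[ℂ] V)) (hu : IsUnRep ρ) (ht : ∀ g, ∃ m : ℕ, 0 < m ∧ ρ g ^ m = 1)
    (W : Submodule ℂ V) (hW : ∀ g, ∀ w ∈ W, ρ g w ∈ W) :
    ∃ σ : G →* (W →ₗ[ℂ] W), (∀ (g : G) (w : W), (σ g w : V) = ρ g w) ∧
      IsUnRep σ ∧ ∀ g, ∃ m : ℕ, 0 < m ∧ σ g ^ m = 1 := by
  let σ : G →* (W →ₗ[ℂ] W) :=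
    { toFun := fun g => (ρ g).restrict (fun w hw => hW g w hw)
      map_one' := by
        ext w
        simp
      map_mul' := by
        intro x y
        ext w
        simp }
  have hσ : ∀ (g : G) (w : W), (σ g w : V) = ρ g w := fun g w => rfl
  refine ⟨σ, hσ, fun g x y => ?_, fun g => ?_⟩
  · show inner ℂ ((σ g x : W) : V) ((σ g y : W) : V) = inner ℂ (x : V) (y : V)
    exact hu g x y
  · obtain ⟨m, hm, h1⟩ := ht g
    refine ⟨m, hm, ?_⟩
    rw [← map_pow] at h1 ⊢
    ext w
    rw [hσ, h1]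
    rfl

/-- finitely generated torsion groups of unitary operators are finite: induction on the dimension (compare `virt_abelian_aux` in LibCS44/VA2).  If there is a proper nonzero invariant subspace `W`, apply
the induction hypothesis to `W` and `Wᗮ` (restriction as in `va2_restrict`, LibCS44/VA2); otherwise `matrix_of_rep` (LibCSA98/Conv) for an orthonormal basis and `burnside_irr` -/
theorem burnside_aux (k : ℕ) : ∀ (G : Type) [Group G] (_ : Group.FG G) (V : Type)
    [NormedAddCommGroup V] [InnerProductSpace ℂ V] [FiniteDimensional ℂ V]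
    (ρ : G →* (V →ₗ[ℂ] V)) (_ : IsUnRep ρ) (_ : ∀ g, ∃ m : ℕ, 0 < m ∧ ρ g ^ m = 1),
    Module.finrank ℂ V ≤ k → (Set.range ρ).Finite := by
  induction k with
  | zero =>
    intro G _ hG V _ _ _ ρ hu ht hk
    have hsub : Subsingleton V := (Module.finrank_zero_iff (R := ℂ)).1 (by omega)
    have hsub2 : Subsingleton (V →ₗ[ℂ] V) := ⟨fun a b => by
      ext v
      exact Subsingleton.elim _ _⟩
    exact Set.toFinite _
  | succ k ih =>
    intro G _ hG V _ _ _ ρ hu ht hk
    by_cases hex : ∃ W : Submodule ℂ V, W ≠ ⊥ ∧ W ≠ ⊤ ∧ ∀ g, ∀ w ∈ W, ρ g w ∈ W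
    · obtain ⟨W, hW0, hW1, hWP⟩ := hex
      have hWlt : Module.finrank ℂ W < Module.finrank ℂ V := Submodule.finrank_lt hW1
      have hWpos : 0 < Module.finrank ℂ W := by
        have : Nontrivial W := (Submodule.nontrivial_iff_ne_bot).2 hW0
        exact Module.finrank_pos
      have hsum := Submodule.finrank_add_finrank_orthogonal W
      have hOP : ∀ g, ∀ w ∈ Wᗮ, ρ g w ∈ Wᗮ := by
        intro g w hw
        rw [Submodule.mem_orthogonal] at hw ⊢
        intro u hu'
        have h1 := hw _ (hWP g⁻¹ u hu')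
        have h3 := hu g (ρ g⁻¹ u) w
        rw [← Module.End.mul_apply, ← map_mul, mul_inv_cancel, map_one, Module.End.one_apply] at h3
        rw [h3, h1]
      obtain ⟨σ, hσ, hσu, hσt⟩ := bf_restrict ρ hu ht W hWP
      obtain ⟨τ, hτ, hτu, hτt⟩ := bf_restrict ρ hu ht Wᗮ hOP
      have f1 := ih G hG W σ hσu hσt (by omega)
      have f2 := ih G hG Wᗮ τ hτu hτt (by omega)
      refine bf_finite_range (fun g => (σ g, τ g)) ρ (fun x y hxy => ?_)
        ((f1.prod f2).subset ?_)
      · rw [Prod.mk.injEq] at hxy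
        ext v
        obtain ⟨w, hw, u, hu', rfl⟩ := W.exists_add_mem_mem_orthogonal v
        have e1 := congrArg (fun T : W →ₗ[ℂ] W => (T ⟨w, hw⟩ : V)) hxy.1
        have e2 := congrArg (fun T : Wᗮ →ₗ[ℂ] Wᗮ => (T ⟨u, hu'⟩ : V)) hxy.2
        simp only [hσ, hτ] at e1 e2
        rw [map_add, map_add, e1, e2]
      · rintro _ ⟨g, rfl⟩
        exact ⟨⟨g, rfl⟩, ⟨g, rfl⟩⟩
    · have hirr : ∀ W : Submodule ℂ V, (∀ g, ∀ w ∈ W, ρ g w ∈ W) → W = ⊥ ∨ W = ⊤ := by
        intro W hW
        by_contra hne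
        rw [not_or] at hne
        exact hex ⟨W, hne.1, hne.2, hW⟩
      let b := stdOrthonormalBasis ℂ V
      obtain ⟨π, hπ⟩ := Pool.Agent.LibCSA98.matrix_of_rep ρ hu b
      let L : V ≃ₗ[ℂ] (Fin (Module.finrank ℂ V) → ℂ) :=
        b.repr.toLinearEquiv.trans (WithLp.linearEquiv 2 ℂ (Fin (Module.finrank ℂ V) → ℂ))
      have hL : ∀ g x, (π g : Matrix _ _ ℂ).mulVec (L x) = L (ρ g x) := fun g x => hπ g x
      have hfin := burnside_irr π (fun W hW => by
        have hc : ∀ g, ∀ w ∈ W.comap L.toLinearMap, ρ g w ∈ W.comap L.toLinearMap := by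
          intro g w hw
          rw [Submodule.mem_comap] at hw ⊢
          have := hW g _ hw
          rw [LinearEquiv.coe_coe, hL] at this
          exact this
        have hmap : (W.comap L.toLinearMap).map L.toLinearMap = W :=
          Submodule.map_comap_eq_of_surjective L.surjective W
        rcases hirr _ hc with h0 | h0
        · left
          rw [← hmap, h0, Submodule.map_bot]
        · right
          rw [← hmap, h0, Submodule.map_top, LinearMap.range_eq_top]
          exact L.surjective) (fun g => by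
        obtain ⟨m, hm, h1⟩ := ht g
        refine ⟨m, hm, ?_⟩
        rw [← SubmonoidClass.coe_pow, ← map_pow]
        rw [← map_pow] at h1
        apply Matrix.toLin'.injective
        refine LinearMap.ext fun v => ?_
        obtain ⟨x, rfl⟩ := L.surjective v
        rw [Matrix.toLin'_apply, hL, h1, Matrix.toLin'_one]
        rfl)
      refine bf_finite_range π ρ (fun x y hxy => ?_) hfin
      ext v
      apply L.injective
      rw [← hL, ← hL, hxy]

theorem burnside_finite {G : Type} [Group G] [Group.FG G] {n : Type} [Fintype n]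
    [DecidableEq n] (π : G →* unitary (Matrix n n ℂ))
    (ht : ∀ g, ∃ k : ℕ, 0 < k ∧ (π g : Matrix n n ℂ) ^ k = 1) : (Set.range π).Finite := by
  obtain ⟨ρ, hu, hρ⟩ := Pool.Agent.LibCSA98.rep_of_matrix π
  have hfin := burnside_aux (Module.finrank ℂ (EuclideanSpace ℂ n)) G ‹_› (EuclideanSpace ℂ n)
    ρ hu (fun g => by
      obtain ⟨m, hm, h1⟩ := ht g
      refine ⟨m, hm, ?_⟩
      rw [← SubmonoidClass.coe_pow, ← map_pow] at h1
      rw [← map_pow]
      refine LinearMap.ext fun x => ?_
      apply WithLp.ofLp_injective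
      rw [hρ, h1, Matrix.one_mulVec]
      rfl) le_rfl
  refine bf_finite_range ρ π (fun x y hxy => ?_) hfin
  apply Subtype.ext
  apply Matrix.toLin'.injective
  refine LinearMap.ext fun v => ?_
  rw [Matrix.toLin'_apply, Matrix.toLin'_apply]
  have h1 := hρ x (WithLp.toLp 2 v)
  have h2 := hρ y (WithLp.toLp 2 v)
  rw [hxy, h2] at h1
  exact h1.symm

end Pool.Agent.LibTA98
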