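import Pool.Agent.LibTA98.Defs
set_option autoImplicit false
namespace Pool.Agent.LibTA98

/-- Burnside's theorem for a monoid of endomorphisms of a finite-dimensional complex space -/
private theorem BurnSpan_end {G : Type} [Group G] {V : Type} [AddCommGroup V] [Module ℂ V]
    [FiniteDimensional ℂ V] [Nontrivial V] (ρ : G →* Module.End ℂ V)
    (hirr : ∀ W : Submodule ℂ V, (∀ g, ∀ w ∈ W, ρ g w ∈ W) → W = ⊥ ∨ W = ⊤) (T : Module.End ℂ V) :
    T ∈ Submodule.span ℂ (Set.range fun g => ρ g) := by
  classical
  let S : Subalgebra ℂ (Module.End ℂ V) := Algebra.adjoin ℂ (Set.range fun g => ρ g)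
  have hρS : ∀ g, ρ g ∈ S := fun g => Algebra.subset_adjoin ⟨g, rfl⟩
  have hsm : ∀ (r : S) (v : V), r • v = (r : Module.End ℂ V) v := fun _ _ => rfl
  -- simplicity
  have hsub : ∀ N : Submodule S V, N = ⊥ ∨ N = ⊤ := by
    intro N
    have hc : ∀ (c : ℂ), ∀ v ∈ N, c • v ∈ N := by
      intro c v hv
      have h1 := N.smul_mem (algebraMap ℂ S c) hv
      rw [hsm] at h1
      exact h1
    let W : Submodule ℂ V :=
      { carrier := N
        add_mem' := fun ha hb => N.add_mem ha hb
        zero_mem' := N.zero_mem
        smul_mem' := fun c v hv => hc c v hv }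
    have hmem : ∀ v, v ∈ W ↔ v ∈ N := fun _ => Iff.rfl
    rcases hirr W (fun g w hw => by
      have h1 := N.smul_mem (⟨ρ g, hρS g⟩ : S) hw
      rw [hsm] at h1
      exact h1) with h | h
    · left
      ext v
      rw [← hmem, h]
      simp
    · right
      ext v
      rw [← hmem, h]
      simp
  haveI : IsSimpleOrder (Submodule S V) :=
    { exists_pair_ne := by
        obtain ⟨v, hv⟩ := exists_ne (0 : V)
        refine ⟨⊥, ⊤, fun h => hv ?_⟩
        have : v ∈ (⊥ : Submodule S V) := by rw [h]; trivial
        simpa using this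
      eq_bot_or_eq_top := hsub }
  haveI : IsSimpleModule S V := by
    rw [isSimpleModule_iff]
    infer_instance
  -- Schur
  have hschur : ∀ φ : Module.End S V, ∃ c : ℂ, ∀ v, φ v = c • v := by
    intro φ
    have hφc : ∀ (c : ℂ) (v : V), φ (c • v) = c • φ v := by
      intro c v
      have h1 := φ.map_smul (algebraMap ℂ S c) v
      rw [hsm, hsm] at h1
      exact h1
    let F : Module.End ℂ V :=
      { toFun := φ
        map_add' := fun a b => φ.map_add a b
        map_smul' := fun c v => hφc c v }
    have hF : ∀ v, F v = φ v := fun _ => rfl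
    obtain ⟨c, hc⟩ := Module.End.exists_eigenvalue F
    refine ⟨c, ?_⟩
    have h1 := hirr (Module.End.eigenspace F c) (fun g w hw => by
      rw [Module.End.mem_eigenspace_iff] at hw ⊢
      have h2 := φ.map_smul (⟨ρ g, hρS g⟩ : S) w
      rw [hsm, hsm] at h2
      have h3 : F (ρ g w) = ρ g (F w) := h2
      rw [h3, hw, map_smul])
    rcases h1 with h1 | h1
    · exact absurd h1 hc
    · intro v
      have h2 : v ∈ Module.End.eigenspace F c := by rw [h1]; trivial
      rw [Module.End.mem_eigenspace_iff] at h2
      exact h2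
  -- the endomorphism `T` commutes with the commutant
  let T' : Module.End (Module.End S V) V :=
    { toFun := T
      map_add' := fun a b => T.map_add a b
      map_smul' := fun φ v => by
        obtain ⟨c, hc⟩ := hschur φ
        show T (φ v) = φ (T v)
        rw [hc, hc, map_smul] }
  let b := Module.finBasis ℂ V
  obtain ⟨r, hr⟩ := jacobson_density (R := S) (M := V) T' (Finset.univ.image b)
  have hTr : T = (r : Module.End ℂ V) := by
    apply b.ext
    intro i
    have h1 := hr (b i) (Finset.mem_image_of_mem _ (Finset.mem_univ i))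
    exact h1
  have hTS : T ∈ Subalgebra.toSubmodule S := by
    rw [hTr]
    exact r.2
  rw [Algebra.adjoin_eq_span] at hTS
  have hcl : (Submonoid.closure (Set.range fun g => ρ g) : Set (Module.End ℂ V)) =
      Set.range fun g => ρ g := by
    have h1 : (Set.range fun g => ρ g) = (MonoidHom.mrange ρ : Set (Module.End ℂ V)) := by
      ext x
      simp
    rw [h1, Submonoid.closure_eq]
  rw [hcl] at hTS
  exact hTS

/-- Burnside's theorem for unitary groups: the span of an irreducible group of unitary matrices is the full matrix algebra.  The span `A` is a `*`-algebra; by irreducibility its commutant is scalar (an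
eigenspace of a commuting matrix is invariant); double commutant theorem in finite dimension, or Jacobson density (Mathlib/RingTheory/SimpleModule), or a direct proof: for the trace
form, a matrix `T` with `trace (T * π g) = 0` for all `g` is `0` (Schur orthogonality style: `U ↦ T U` ...). -/
theorem span_eq_top {G : Type} [Group G] {d : ℕ} (π : G →* unitary (Matrix (Fin d) (Fin d) ℂ))
    (hirr : ∀ W : Submodule ℂ (Fin d → ℂ),
      (∀ g, ∀ w ∈ W, (π g : Matrix (Fin d) (Fin d) ℂ).mulVec w ∈ W) → W = ⊥ ∨ W = ⊤) :
    Submodule.span ℂ (Set.range fun g => (π g : Matrix (Fin d) (Fin d) ℂ)) = ⊤ := by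
  classical
  rcases Nat.eq_zero_or_pos d with rfl | hd
  · exact Subsingleton.elim _ _
  · haveI : Nonempty (Fin d) := ⟨⟨0, hd⟩⟩
    let e := Matrix.toLinAlgEquiv' (R := ℂ) (n := Fin d)
    let ρ : G →* Module.End ℂ (Fin d → ℂ) :=
      ((e : Matrix (Fin d) (Fin d) ℂ →ₐ[ℂ] Module.End ℂ (Fin d → ℂ)) :
        Matrix (Fin d) (Fin d) ℂ →* Module.End ℂ (Fin d → ℂ)).comp
        ((unitary (Matrix (Fin d) (Fin d) ℂ)).subtype.comp π)
    have hρ : ∀ g, ρ g = e (π g : Matrix (Fin d) (Fin d) ℂ) := fun _ => rfl
    have hρv : ∀ g v, ρ g v = (π g : Matrix (Fin d) (Fin d) ℂ).mulVec v := fun _ _ => rfl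
    rw [eq_top_iff]
    intro X _
    have h1 := BurnSpan_end ρ (fun W hW => hirr W (fun g w hw => by
      rw [← hρv]
      exact hW g w hw)) (e X)
    have h2 : (Set.range fun g => ρ g) =
        e.toLinearMap '' (Set.range fun g => (π g : Matrix (Fin d) (Fin d) ℂ)) := by
      rw [← Set.range_comp]
      rfl
    rw [h2, Submodule.span_image] at h1
    obtain ⟨Y, hY, hYX⟩ := h1
    have h3 : Y = X := e.injective hYX
    rw [← h3]
    exact hY

end Pool.Agent.LibTA98
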