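import Pool.Agent.LibTA98.FinTr
import Pool.Agent.LibTA98.BurnSpan
set_option autoImplicit false
namespace Pool.Agent.LibTA98

private theorem bi_ext {d : ℕ} {m : Type} [Fintype m]
    (b : Module.Basis m ℂ (Matrix (Fin d) (Fin d) ℂ)) (A B : Matrix (Fin d) (Fin d) ℂ)
    (h : ∀ l, (A * b l).trace = (B * b l).trace) : A = B := by
  have h1 : (Matrix.traceLinearMap (Fin d) ℂ ℂ) ∘ₗ (LinearMap.mulLeft ℂ A) =
      (Matrix.traceLinearMap (Fin d) ℂ ℂ) ∘ₗ (LinearMap.mulLeft ℂ B) :=
    b.ext fun l => h l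
  rw [Matrix.ext_iff_trace_mul_right]
  intro X
  exact LinearMap.congr_fun h1 X

/-- the transposed matrix of the right multiplication -/
private noncomputable def biF {d : ℕ} {m : Type} [Fintype m] [DecidableEq m]
    (b : Module.Basis m ℂ (Matrix (Fin d) (Fin d) ℂ)) :
    Matrix (Fin d) (Fin d) ℂ →* Matrix m m ℂ where
  toFun A := (LinearMap.toMatrix b b (LinearMap.mulRight ℂ A)).transpose
  map_one' := by
    rw [LinearMap.mulRight_one, LinearMap.toMatrix_id, Matrix.transpose_one]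
  map_mul' A B := by
    rw [LinearMap.mulRight_mul, LinearMap.toMatrix_comp b b b, Matrix.transpose_mul]

private theorem biF_apply {d : ℕ} {m : Type} [Fintype m] [DecidableEq m]
    (b : Module.Basis m ℂ (Matrix (Fin d) (Fin d) ℂ)) (A : Matrix (Fin d) (Fin d) ℂ) (j k : m) :
    biF b A j k = b.repr (b j * A) k := by
  show LinearMap.toMatrix b b (LinearMap.mulRight ℂ A) k j = _
  rw [LinearMap.toMatrix_apply]
  rfl

private theorem biF_trace {d : ℕ} {m : Type} [Fintype m] [DecidableEq m]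
    (b : Module.Basis m ℂ (Matrix (Fin d) (Fin d) ℂ)) (A : Matrix (Fin d) (Fin d) ℂ) :
    (biF b A).trace = d * A.trace := by
  show (LinearMap.toMatrix b b (LinearMap.mulRight ℂ A)).transpose.trace = _
  rw [Matrix.trace_transpose, ← LinearMap.trace_eq_matrix_trace,
    LinearMap.trace_eq_matrix_trace ℂ (Matrix.stdBasis ℂ (Fin d) (Fin d)), Matrix.trace]
  have h1 : ∀ p : Fin d × Fin d, Matrix.diag (LinearMap.toMatrix (Matrix.stdBasis ℂ (Fin d) (Fin d))
      (Matrix.stdBasis ℂ (Fin d) (Fin d)) (LinearMap.mulRight ℂ A)) p = A p.2 p.2 := by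
    rintro ⟨i, j⟩
    rw [Matrix.diag_apply, LinearMap.toMatrix_apply, Matrix.stdBasis_eq_single,
      LinearMap.mulRight_apply]
    have h2 : (Matrix.stdBasis ℂ (Fin d) (Fin d)).repr (Matrix.single i j (1 : ℂ) * A) (i, j) =
        (Matrix.single i j (1 : ℂ) * A) i j := rfl
    rw [h2]
    simp
  rw [Finset.sum_congr rfl fun p _ => h1 p, Fintype.sum_prod_type]
  simp [Matrix.trace]

/-- the relation `M T = S` -/
private theorem biF_mul {d : ℕ} {m : Type} [Fintype m] [DecidableEq m]
    (b : Module.Basis m ℂ (Matrix (Fin d) (Fin d) ℂ)) (A : Matrix (Fin d) (Fin d) ℂ) :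
    biF b A * Matrix.of (fun j k => (b j * b k).trace) =
      Matrix.of fun j l => (b j * A * b l).trace := by
  ext j l
  rw [Matrix.mul_apply, Matrix.of_apply]
  have h1 : b j * A = ∑ k, biF b A j k • b k := by
    simp only [biF_apply]
    exact (b.sum_repr (b j * A)).symm
  rw [h1, Finset.sum_mul, Matrix.trace_sum]
  refine Finset.sum_congr rfl fun k _ => ?_
  rw [Matrix.smul_mul, Matrix.trace_smul, Matrix.of_apply, smul_eq_mul]

private theorem bi_det {d : ℕ} {m : Type} [Fintype m] [DecidableEq m]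
    (b : Module.Basis m ℂ (Matrix (Fin d) (Fin d) ℂ)) :
    (Matrix.of fun j k => (b j * b k).trace).det ≠ 0 := by
  intro h0
  obtain ⟨c, hc, h⟩ := Matrix.exists_mulVec_eq_zero_iff.mpr h0
  have h1 : (∑ k, c k • b k) = 0 := by
    refine bi_ext b _ _ fun j => ?_
    rw [Matrix.zero_mul, Matrix.trace_zero, Matrix.trace_mul_comm, Finset.mul_sum,
      Matrix.trace_sum]
    have h2 := congrFun h j
    rw [Matrix.mulVec, dotProduct] at h2
    refine Eq.trans (Finset.sum_congr rfl fun k _ => ?_) h2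
    rw [Matrix.mul_smul, Matrix.trace_smul, Matrix.of_apply, smul_eq_mul, mul_comm]
  apply hc
  funext k
  exact (Fintype.linearIndependent_iff.1 b.linearIndependent) c h1 k

/-- algebraicity of the solution of a linear system -/
private theorem bi_alg {m : Type} [Fintype m] [DecidableEq m] (X T S : Matrix m m ℂ)
    (h : X * T = S) (hT : T.det ≠ 0) (hTa : ∀ i j, IsAlgebraic ℚ (T i j))
    (hSa : ∀ i j, IsAlgebraic ℚ (S i j)) (i j : m) : IsAlgebraic ℚ (X i j) := by
  let K : IntermediateField ℚ ℂ := algebraicClosure ℚ ℂ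
  let T' : Matrix m m K := Matrix.of fun i j => ⟨T i j, (mem_algebraicClosure_iff).2 (hTa i j)⟩
  let S' : Matrix m m K := Matrix.of fun i j => ⟨S i j, (mem_algebraicClosure_iff).2 (hSa i j)⟩
  have hT' : T'.map (algebraMap K ℂ) = T := by
    ext i j
    rfl
  have hS' : S'.map (algebraMap K ℂ) = S := by
    ext i j
    rfl
  have hdet : T'.det ≠ 0 := by
    intro h0
    apply hT
    rw [← hT', ← RingHom.mapMatrix_apply, ← RingHom.map_det, h0, map_zero]
  have h1 : T' * T'⁻¹ = 1 := Matrix.mul_nonsing_inv T' (isUnit_iff_ne_zero.2 hdet)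
  have h2 : X = (S' * T'⁻¹).map (algebraMap K ℂ) := by
    have h3 : T * (T'⁻¹).map (algebraMap K ℂ) = 1 := by
      rw [← hT', ← Matrix.map_mul, h1]
      exact Matrix.map_one _ (map_zero _) (map_one _)
    rw [Matrix.map_mul, hS', ← h, mul_assoc, h3, mul_one]
  rw [h2]
  exact (mem_algebraicClosure_iff).1 ((S' * T'⁻¹) i j).2

/-- Finitely generated irreducible torsion groups are finite.  Choose `g j`, `j : m` (`card m = d ^ 2`), such that the `π (g j)` are a basis of the matrix algebra (`span_eq_top`).  Write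
`π (g j) * π x = ∑ k, M x j k • π (g k)`: `M` is a homomorphism with `M x ^ k = 1` if `π x ^ k = 1`.  The matrix `T j k = trace (π (g j) * π (g k))` is invertible (the trace form is nondegenerate) and
`M x * T = S x` with `S x j l = trace (π (g j * x * g l))`; all the entries are algebraic (`isAlgebraic_trace`), so `finite_traces` applies to `M`.  `trace (M x) = d * trace (π x)` (right
multiplication on the matrix algebra), so the `trace (π x)` take finitely many values, so do the `S x`, `M x = S x * T⁻¹` and the `π x` (determined by `M x`). -/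
theorem burnside_irr {G : Type} [Group G] [Group.FG G] {d : ℕ}
    (π : G →* unitary (Matrix (Fin d) (Fin d) ℂ))
    (hirr : ∀ W : Submodule ℂ (Fin d → ℂ),
      (∀ g, ∀ w ∈ W, (π g : Matrix (Fin d) (Fin d) ℂ).mulVec w ∈ W) → W = ⊥ ∨ W = ⊤)
    (ht : ∀ g, ∃ k : ℕ, 0 < k ∧ (π g : Matrix (Fin d) (Fin d) ℂ) ^ k = 1) :
    (Set.range π).Finite := by
  classical
  rcases Nat.eq_zero_or_pos d with hd | hd
  · subst hd
    exact Set.toFinite _
  obtain ⟨B, hB, hspan, hli⟩ := exists_linearIndependent ℂ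
    (Set.range fun g => (π g : Matrix (Fin d) (Fin d) ℂ))
  have hspan' : ⊤ ≤ Submodule.span ℂ (Set.range ((↑) : B → Matrix (Fin d) (Fin d) ℂ)) := by
    rw [Subtype.range_coe, hspan, span_eq_top π hirr]
  let b : Module.Basis B ℂ (Matrix (Fin d) (Fin d) ℂ) := Module.Basis.mk hli hspan'
  have hBfin : Finite B := Module.Finite.finite_basis b
  let _ : Fintype B := Fintype.ofFinite B
  have hb : ∀ j : B, b j = (j : Matrix (Fin d) (Fin d) ℂ) := fun j => by
    rw [Module.Basis.mk_apply]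
  have hg : ∀ j : B, ∃ g : G, (π g : Matrix (Fin d) (Fin d) ℂ) = b j := fun j => by
    obtain ⟨g, hg⟩ := hB j.2
    exact ⟨g, by rw [hb]; exact hg⟩
  choose g hg using hg
  have hπ : ∀ x y : G, (π (x * y) : Matrix (Fin d) (Fin d) ℂ) = π x * π y := fun x y => by
    rw [map_mul]
    rfl
  have hta : ∀ x : G, IsAlgebraic ℚ (π x : Matrix (Fin d) (Fin d) ℂ).trace := fun x => by
    obtain ⟨k, hk, h⟩ := ht x
    exact isAlgebraic_trace _ k hk h
  let M : G →* Matrix B B ℂ := (biF b).comp ((unitary (Matrix (Fin d) (Fin d) ℂ)).subtype.comp π)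
  have hM : ∀ x, M x = biF b (π x : Matrix (Fin d) (Fin d) ℂ) := fun x => rfl
  have halg : ∀ x i j, IsAlgebraic ℚ (M x i j) := by
    intro x i j
    refine bi_alg _ _ _ (biF_mul b (π x : Matrix (Fin d) (Fin d) ℂ)) (bi_det b) ?_ ?_ i j
    · intro j k
      rw [Matrix.of_apply, ← hg j, ← hg k, ← hπ]
      exact hta _
    · intro j l
      rw [Matrix.of_apply, ← hg j, ← hg l, ← hπ, ← hπ]
      exact hta _
  have htor : ∀ x, ∃ k : ℕ, 0 < k ∧ M x ^ k = 1 := by
    intro x
    obtain ⟨k, hk, h⟩ := ht x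
    refine ⟨k, hk, ?_⟩
    rw [hM, ← map_pow, h, map_one]
  have hfin := finite_traces M halg htor
  have hfin2 : (Set.range fun x => (π x : Matrix (Fin d) (Fin d) ℂ).trace).Finite := by
    refine (hfin.image fun z : ℂ => z / (d : ℂ)).subset ?_
    rintro _ ⟨x, rfl⟩
    refine ⟨_, ⟨x, rfl⟩, ?_⟩
    have hd0 : (d : ℂ) ≠ 0 := Nat.cast_ne_zero.2 hd.ne'
    show (M x).trace / d = _
    rw [hM, biF_trace, mul_div_cancel_left₀ _ hd0]
  set Tr : Set ℂ := Set.range fun x => (π x : Matrix (Fin d) (Fin d) ℂ).trace with hTr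
  let Φ : unitary (Matrix (Fin d) (Fin d) ℂ) → B → ℂ := fun U l =>
    ((U : Matrix (Fin d) (Fin d) ℂ) * b l).trace
  have hΦ : Function.Injective Φ := by
    intro U V h
    apply Subtype.ext
    exact bi_ext b _ _ fun l => congrFun h l
  have hpi : (Set.univ.pi fun _ : B => Tr).Finite := Set.Finite.pi fun _ => hfin2
  refine Set.Finite.of_finite_image (f := Φ) (hpi.subset ?_) hΦ.injOn
  rintro _ ⟨_, ⟨x, rfl⟩, rfl⟩ l _
  refine ⟨x * g l, ?_⟩
  show (π (x * g l) : Matrix (Fin d) (Fin d) ℂ).trace = ((π x : Matrix (Fin d) (Fin d) ℂ) * b l).trace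
  rw [hπ, hg]

end Pool.Agent.LibTA98
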