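import Mathlib
set_option autoImplicit false

/-!
# Amenable subgroups of `U(n)` are virtually abelian: definitions
-/

namespace Pool.Agent.LibTA98

/-- strong irreducibility: no finite index subgroup has a proper nonzero invariant subspace -/
def StrIrr {G : Type} [Group G] {d : ℕ} (R : G →* Matrix (Fin d) (Fin d) ℂ) : Prop :=
  ∀ P : Subgroup G, P.FiniteIndex → ∀ W : Submodule ℂ (Fin d → ℂ),
    (∀ g ∈ P, ∀ w ∈ W, (R g).mulVec w ∈ W) → W = ⊥ ∨ W = ⊤

/-- `l` is an eigenvalue of `U` -/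
def IsEig {d : ℕ} (U : Matrix (Fin d) (Fin d) ℂ) (l : ℂ) : Prop :=
  ∃ x : Fin d → ℂ, x ≠ 0 ∧ U.mulVec x = l • x

end Pool.Agent.LibTA98
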