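import Pool.Agent.LibTA98.Spec
set_option autoImplicit false
namespace Pool.Agent.LibTA98

private lemma dom_bound {k : Type} [NormedField k] {d : ℕ} (A : Matrix (Fin d) (Fin d) k) :
    ∃ M : ℝ, 0 ≤ M ∧ ∀ v : Fin d → k, ‖A.mulVec v‖ ≤ M * ‖v‖ := by
  refine ⟨∑ a, ∑ b, ‖A a b‖, by positivity, fun v => ?_⟩
  rw [pi_norm_le_iff_of_nonneg (by positivity)]
  intro a
  have h1 : (A.mulVec v) a = ∑ b, A a b * v b := rfl
  rw [h1]
  calc ‖∑ b, A a b * v b‖ ≤ ∑ b, ‖A a b * v b‖ := norm_sum_le _ _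
    _ ≤ ∑ b, ‖A a b‖ * ‖v‖ := by
        refine Finset.sum_le_sum fun b _ => ?_
        rw [norm_mul]
        exact mul_le_mul_of_nonneg_left (norm_le_pi_norm v b) (norm_nonneg _)
    _ = (∑ b, ‖A a b‖) * ‖v‖ := by rw [Finset.sum_mul]
    _ ≤ (∑ a, ∑ b, ‖A a b‖) * ‖v‖ := by
        refine mul_le_mul_of_nonneg_right ?_ (norm_nonneg _)
        exact Finset.single_le_sum (f := fun a => ∑ b, ‖A a b‖) (fun i _ => by positivity)
          (Finset.mem_univ a)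

/-- Domination.  With `exists_spec`: let `c` be the maximum of the `‖σ (l i)‖`, `P` the sum of the `E i` with `‖σ (l i)‖ = c` and `Q` the sum of the others (`Q ≠ 0` because `‖σ z‖ ≠ ‖σ w‖`), `c' < c` the
maximum for `Q`.  For the sup norm on `Fin d → k`: `‖σQ (σU ^ j y)‖ ≤ C c' ^ j ‖σQ y‖` and `‖σP y‖ ≤ C c ^ (-j) ‖σP (σU ^ j y)‖`; if not `‖σP y‖ < δ ‖σQ y‖` then
`σP y ≠ 0` and `‖σQ (σU ^ j y)‖ ≤ C ^ 2 (c' / c) ^ j δ⁻¹ ‖σP (σU ^ j y)‖`. -/
theorem exists_dom {k : Type} [NormedField k] (σ : ℂ →+* k) {d : ℕ}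
    (U : Matrix (Fin d) (Fin d) ℂ) (hU : U ∈ unitary (Matrix (Fin d) (Fin d) ℂ)) (z w : ℂ)
    (hz : IsEig U z) (hw : IsEig U w) (hne : ‖σ z‖ ≠ ‖σ w‖) :
    ∃ P Q : Matrix (Fin d) (Fin d) ℂ, P ≠ 0 ∧ Q ≠ 0 ∧ ∀ δ : ℝ, 0 < δ →
      ∃ j : ℕ, ∀ y : Fin d → k, y ≠ 0 →
        ‖(σ.mapMatrix P).mulVec y‖ < δ * ‖(σ.mapMatrix Q).mulVec y‖ ∨
        ‖(σ.mapMatrix Q).mulVec ((σ.mapMatrix (U ^ j)).mulVec y)‖ <
          δ * ‖(σ.mapMatrix P).mulVec ((σ.mapMatrix (U ^ j)).mulVec y)‖ := by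
  classical
  obtain ⟨r, l, E, -, hl0, hE0, hEE, hE1, hUE⟩ := exists_spec U hU
  obtain ⟨iz, hiz⟩ := spec_eig hEE hE1 hUE z hz
  obtain ⟨iw, hiw⟩ := spec_eig hEE hE1 hUE w hw
  obtain ⟨i0, -, hi0⟩ := Finset.exists_max_image (Finset.univ : Finset (Fin r))
    (fun i => ‖σ (l i)‖) ⟨iz, Finset.mem_univ _⟩
  set c : ℝ := ‖σ (l i0)‖ with hc
  have hσ0 : ∀ i, σ (l i) ≠ 0 := fun i => by
    intro h
    exact hl0 i ((map_eq_zero σ).1 h)
  have hc0 : 0 < c := norm_pos_iff.2 (hσ0 i0)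
  set S : Finset (Fin r) := Finset.univ.filter (fun i => ‖σ (l i)‖ = c) with hS
  set T : Finset (Fin r) := Finset.univ.filter (fun i => ¬ ‖σ (l i)‖ = c) with hT
  have hTne : T.Nonempty := by
    by_contra h
    rw [Finset.not_nonempty_iff_eq_empty] at h
    have h1 : ∀ i, ‖σ (l i)‖ = c := by
      intro i
      by_contra hi
      have : i ∈ T := by simp [hT, hi]
      rw [h] at this
      exact absurd this (Finset.notMem_empty i)
    exact hne (by rw [← hiz, ← hiw, h1, h1])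
  obtain ⟨i1, hi1T, hi1⟩ := Finset.exists_max_image T (fun i => ‖σ (l i)‖) hTne
  set c' : ℝ := ‖σ (l i1)‖ with hc'
  have hc'0 : 0 < c' := norm_pos_iff.2 (hσ0 i1)
  have hc'c : c' < c := by
    have h1 : c' ≤ c := hi0 i1 (Finset.mem_univ _)
    have h2 : ¬ c' = c := (Finset.mem_filter.1 hi1T).2
    exact lt_of_le_of_ne h1 h2
  have hi0S : i0 ∈ S := by simp [hS, hc]
  -- products of partial sums
  have hmulS : ∀ (A : Finset (Fin r)) (i : Fin r), E i * (∑ j ∈ A, E j) = if i ∈ A then E i else 0 := by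
    intro A i
    rw [Finset.mul_sum]
    simp only [hEE]
    rw [Finset.sum_ite_eq]
  refine ⟨∑ i ∈ S, E i, ∑ i ∈ T, E i, ?_, ?_, ?_⟩
  · intro h
    have := hmulS S i0
    rw [h, mul_zero, if_pos hi0S] at this
    exact hE0 i0 this.symm
  · intro h
    have := hmulS T i1
    rw [h, mul_zero, if_pos hi1T] at this
    exact hE0 i1 this.symm
  intro δ hδ
  -- bounds
  choose M hM0 hM using fun i => dom_bound (σ.mapMatrix (E i))
  set C : ℝ := ∑ i, M i with hC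
  have hC0 : 0 ≤ C := Finset.sum_nonneg fun i _ => hM0 i
  have hlim : ∃ j : ℕ, C ^ 2 * (c' / c) ^ j * δ⁻¹ < δ := by
    have h1 : c' / c < 1 := (div_lt_one hc0).2 hc'c
    have h2 : 0 ≤ c' / c := by positivity
    have h3 : Filter.Tendsto (fun j : ℕ => C ^ 2 * (c' / c) ^ j * δ⁻¹) Filter.atTop
        (nhds (C ^ 2 * 0 * δ⁻¹)) :=
      ((tendsto_pow_atTop_nhds_zero_of_lt_one h2 h1).const_mul _).mul_const _
    have h4 : C ^ 2 * 0 * δ⁻¹ < δ := by simpa using hδ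
    exact (h3.eventually (gt_mem_nhds h4)).exists
  obtain ⟨j, hj⟩ := hlim
  refine ⟨j, fun y hy => ?_⟩
  set P' := σ.mapMatrix (∑ i ∈ S, E i) with hP'
  set Q' := σ.mapMatrix (∑ i ∈ T, E i) with hQ'
  set V := σ.mapMatrix (U ^ j) with hV
  -- E i * U ^ j = (l i) ^ j • E i
  have hEU : ∀ i, E i * U ^ j = l i ^ j • E i := by
    intro i
    rw [spec_pow hEE hE1 hUE j, Finset.mul_sum]
    simp only [mul_smul_comm, hEE]
    rw [Finset.sum_eq_single i]
    · simp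
    · intro b _ hb
      rw [if_neg (Ne.symm hb), smul_zero]
    · intro h; exact absurd (Finset.mem_univ i) h
  have hmapsmul : ∀ (a : ℂ) (A : Matrix (Fin d) (Fin d) ℂ),
      σ.mapMatrix (a • A) = σ a • σ.mapMatrix A := by
    intro a A
    ext p q
    simp
  have hEU' : ∀ i, σ.mapMatrix (E i) * V = σ (l i) ^ j • σ.mapMatrix (E i) := by
    intro i
    rw [hV, ← map_mul, hEU, hmapsmul, map_pow]
  have hEP' : ∀ i ∈ S, σ.mapMatrix (E i) * P' = σ.mapMatrix (E i) := by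
    intro i hi
    rw [hP', ← map_mul, hmulS, if_pos hi]
  have hEQ' : ∀ i ∈ T, σ.mapMatrix (E i) * Q' = σ.mapMatrix (E i) := by
    intro i hi
    rw [hQ', ← map_mul, hmulS, if_pos hi]
  have hP'sum : ∀ v, P'.mulVec v = ∑ i ∈ S, (σ.mapMatrix (E i)).mulVec v := by
    intro v
    rw [hP', map_sum, Matrix.sum_mulVec]
  have hQ'sum : ∀ v, Q'.mulVec v = ∑ i ∈ T, (σ.mapMatrix (E i)).mulVec v := by
    intro v
    rw [hQ', map_sum, Matrix.sum_mulVec]
  -- the two estimates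
  have hQest : ‖Q'.mulVec (V.mulVec y)‖ ≤ C * c' ^ j * ‖Q'.mulVec y‖ := by
    rw [hQ'sum (V.mulVec y)]
    calc ‖∑ i ∈ T, (σ.mapMatrix (E i)).mulVec (V.mulVec y)‖
        ≤ ∑ i ∈ T, ‖(σ.mapMatrix (E i)).mulVec (V.mulVec y)‖ := norm_sum_le _ _
      _ ≤ ∑ i ∈ T, M i * (c' ^ j * ‖Q'.mulVec y‖) := by
          refine Finset.sum_le_sum fun i hi => ?_
          have h1 : (σ.mapMatrix (E i)).mulVec (V.mulVec y) =
              σ (l i) ^ j • (σ.mapMatrix (E i)).mulVec (Q'.mulVec y) := by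
            rw [Matrix.mulVec_mulVec, hEU', Matrix.smul_mulVec, Matrix.mulVec_mulVec, hEQ' i hi]
          rw [h1, norm_smul, norm_pow]
          have h2 : ‖σ (l i)‖ ^ j ≤ c' ^ j := pow_le_pow_left₀ (norm_nonneg _) (hi1 i hi) j
          calc ‖σ (l i)‖ ^ j * ‖(σ.mapMatrix (E i)).mulVec (Q'.mulVec y)‖
              ≤ c' ^ j * (M i * ‖Q'.mulVec y‖) :=
                mul_le_mul h2 (hM i _) (norm_nonneg _) (by positivity)
            _ = M i * (c' ^ j * ‖Q'.mulVec y‖) := by ring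
      _ = (∑ i ∈ T, M i) * (c' ^ j * ‖Q'.mulVec y‖) := by rw [Finset.sum_mul]
      _ ≤ C * (c' ^ j * ‖Q'.mulVec y‖) := by
          refine mul_le_mul_of_nonneg_right ?_ (by positivity)
          exact Finset.sum_le_sum_of_subset_of_nonneg (Finset.subset_univ _) fun i _ _ => hM0 i
      _ = C * c' ^ j * ‖Q'.mulVec y‖ := by ring
  have hPest : c ^ j * ‖P'.mulVec y‖ ≤ C * ‖P'.mulVec (V.mulVec y)‖ := by
    rw [hP'sum y]
    calc c ^ j * ‖∑ i ∈ S, (σ.mapMatrix (E i)).mulVec y‖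
        ≤ c ^ j * ∑ i ∈ S, ‖(σ.mapMatrix (E i)).mulVec y‖ :=
          mul_le_mul_of_nonneg_left (norm_sum_le _ _) (by positivity)
      _ = ∑ i ∈ S, c ^ j * ‖(σ.mapMatrix (E i)).mulVec y‖ := by rw [Finset.mul_sum]
      _ ≤ ∑ i ∈ S, M i * ‖P'.mulVec (V.mulVec y)‖ := by
          refine Finset.sum_le_sum fun i hi => ?_
          have hci : ‖σ (l i)‖ = c := (Finset.mem_filter.1 hi).2
          have h1 : (σ.mapMatrix (E i)).mulVec (P'.mulVec (V.mulVec y)) =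
              σ (l i) ^ j • (σ.mapMatrix (E i)).mulVec y := by
            rw [Matrix.mulVec_mulVec, hEP' i hi, Matrix.mulVec_mulVec, hEU', Matrix.smul_mulVec]
          have h2 := hM i (P'.mulVec (V.mulVec y))
          rw [h1, norm_smul, norm_pow, hci] at h2
          exact h2
      _ = (∑ i ∈ S, M i) * ‖P'.mulVec (V.mulVec y)‖ := by rw [Finset.sum_mul]
      _ ≤ C * ‖P'.mulVec (V.mulVec y)‖ := by
          refine mul_le_mul_of_nonneg_right ?_ (by positivity)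
          exact Finset.sum_le_sum_of_subset_of_nonneg (Finset.subset_univ _) fun i _ _ => hM0 i
  by_cases hlt : ‖P'.mulVec y‖ < δ * ‖Q'.mulVec y‖
  · exact Or.inl hlt
  right
  have hge : δ * ‖Q'.mulVec y‖ ≤ ‖P'.mulVec y‖ := not_lt.1 hlt
  have hPQ : P'.mulVec y + Q'.mulVec y = y := by
    rw [← Matrix.add_mulVec, hP', hQ', ← map_add]
    have : (∑ i ∈ S, E i) + (∑ i ∈ T, E i) = 1 := by
      rw [hS, hT, Finset.sum_filter_add_sum_filter_not, hE1]
    rw [this, map_one, Matrix.one_mulVec]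
  have hPy : 0 < ‖P'.mulVec y‖ := by
    rcases lt_or_eq_of_le (norm_nonneg (P'.mulVec y)) with h | h
    · exact h
    exfalso
    rw [← h] at hge
    have h1 : ‖Q'.mulVec y‖ ≤ 0 := by
      by_contra h2
      have := mul_pos hδ (not_le.1 h2)
      linarith
    have h2 : Q'.mulVec y = 0 := norm_le_zero_iff.1 h1
    have h3 : P'.mulVec y = 0 := norm_eq_zero.1 h.symm
    rw [h2, h3, add_zero] at hPQ
    exact hy hPQ.symm
  have hPV : 0 < ‖P'.mulVec (V.mulVec y)‖ := by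
    by_contra h
    have h1 : ‖P'.mulVec (V.mulVec y)‖ = 0 := le_antisymm (not_lt.1 h) (norm_nonneg _)
    rw [h1, mul_zero] at hPest
    have : 0 < c ^ j * ‖P'.mulVec y‖ := by positivity
    linarith
  have hcj : 0 < c ^ j := by positivity
  calc ‖Q'.mulVec (V.mulVec y)‖ ≤ C * c' ^ j * ‖Q'.mulVec y‖ := hQest
    _ ≤ C * c' ^ j * (δ⁻¹ * ‖P'.mulVec y‖) := by
        refine mul_le_mul_of_nonneg_left ?_ (by positivity)
        rw [inv_mul_eq_div, le_div_iff₀ hδ]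
        linarith
    _ ≤ C * c' ^ j * (δ⁻¹ * (C * ‖P'.mulVec (V.mulVec y)‖ / c ^ j)) := by
        refine mul_le_mul_of_nonneg_left ?_ (by positivity)
        refine mul_le_mul_of_nonneg_left ?_ (by positivity)
        rw [le_div_iff₀ hcj]
        linarith
    _ = (C ^ 2 * (c' / c) ^ j * δ⁻¹) * ‖P'.mulVec (V.mulVec y)‖ := by
        rw [div_pow]
        field_simp
    _ < δ * ‖P'.mulVec (V.mulVec y)‖ := mul_lt_mul_of_pos_right hj hPV

end Pool.Agent.LibTA98
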