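import Pool.Agent.LibTA98.Defs
set_option autoImplicit false
namespace Pool.Agent.LibTA98
open Polynomial Cardinal

private theorem EquivAB_aux {R K L : Type} [CommRing R] [Nontrivial R] [Field K] [Field L] [Algebra R K]
    [Algebra R L] [FaithfulSMul R K] [FaithfulSMul R L] [IsAlgClosed K] [IsAlgClosed L]
    (hR : #R ≤ ℵ₀) (hK : ℵ₀ < #K) (hKL : #K = #L) :
    ∃ e : K ≃+* L, ∀ r : R, e (algebraMap R K r) = algebraMap R L r := by
  obtain ⟨s, hs⟩ := exists_isTranscendenceBasis R K
  obtain ⟨t, ht⟩ := exists_isTranscendenceBasis R L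
  have hst : #s = #t := by
    rw [← IsAlgClosed.cardinal_eq_cardinal_transcendence_basis_of_aleph0_lt' _ hs hR hK, hKL,
      ← IsAlgClosed.cardinal_eq_cardinal_transcendence_basis_of_aleph0_lt' _ ht hR (hKL ▸ hK)]
  obtain ⟨e0⟩ := Cardinal.eq.1 hst
  let := IsAlgClosed.isAlgClosure_of_transcendence_basis _ hs
  let := IsAlgClosed.isAlgClosure_of_transcendence_basis _ ht
  let e1 : Algebra.adjoin R (Set.range ((↑) : s → K)) ≃ₐ[R] Algebra.adjoin R (Set.range ((↑) : t → L)) :=
    hs.1.aevalEquiv.symm.trans ((MvPolynomial.renameEquiv R e0).trans ht.1.aevalEquiv)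
  refine ⟨IsAlgClosure.equivOfEquiv K L e1.toRingEquiv, fun r => ?_⟩
  rw [IsScalarTower.algebraMap_apply R (Algebra.adjoin R (Set.range ((↑) : s → K))) K,
    IsAlgClosure.equivOfEquiv_algebraMap,
    IsScalarTower.algebraMap_apply R (Algebra.adjoin R (Set.range ((↑) : t → L))) L]
  congr 1
  exact e1.commutes r

/-- Isomorphisms of algebraically closed fields with a prescribed value.  Let `F = ℚ⟮a⟯` (`IntermediateField.adjoin ℚ {a}`; countable).  By `hab` there is an embedding `ι : F →+* L` with `ι a = b`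
(`ℚ[X] ⧸ ker ≃ ℚ[a]`; fraction field).  Make `L` an `F`-algebra by `ι`; transcendence bases `s`, `t` of `K`, `L` over `F` have the cardinality of `K` and `L`
(`IsAlgClosed.cardinal_eq_cardinal_transcendence_basis_of_aleph0_lt'`).  The isomorphism `Algebra.adjoin F s ≃ₐ[F] Algebra.adjoin F t` of the construction
`IsAlgClosed.equivOfTranscendenceBasis` extends to the algebraic closures (`IsAlgClosure.equivOfEquiv`, `IsAlgClosure.equivOfEquiv_algebraMap`) and is compatible with the maps from `F`. -/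
theorem exists_ringEquiv_map {K L : Type} [Field K] [Field L] [CharZero K] [CharZero L]
    [IsAlgClosed K] [IsAlgClosed L] (hK : ℵ₀ < #K) (hKL : #K = #L) (a : K) (b : L)
    (hab : ∀ f : ℚ[X], aeval a f = 0 ↔ aeval b f = 0) : ∃ e : K ≃+* L, e a = b := by
  let f : ℚ[X] →+* K := (aeval a : ℚ[X] →ₐ[ℚ] K).toRingHom
  let g : ℚ[X] →+* L := (aeval b : ℚ[X] →ₐ[ℚ] L).toRingHom
  have hfg : ∀ x, f x = 0 ↔ g x = 0 := hab
  let R : Type := ℚ[X] ⧸ RingHom.ker f
  let i : R →+* K := Ideal.Quotient.lift (RingHom.ker f) f fun x hx => hx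
  let j : R →+* L := Ideal.Quotient.lift (RingHom.ker f) g fun x hx => (hfg x).1 hx
  have hi : Function.Injective i := by
    rw [injective_iff_map_eq_zero]
    intro x hx
    obtain ⟨x, rfl⟩ := Ideal.Quotient.mk_surjective x
    exact Ideal.Quotient.eq_zero_iff_mem.2 hx
  have hj : Function.Injective j := by
    rw [injective_iff_map_eq_zero]
    intro x hx
    obtain ⟨x, rfl⟩ := Ideal.Quotient.mk_surjective x
    exact Ideal.Quotient.eq_zero_iff_mem.2 ((hfg x).2 hx)
  let : Algebra R K := i.toAlgebra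
  let : Algebra R L := j.toAlgebra
  have : FaithfulSMul R K := (faithfulSMul_iff_algebraMap_injective R K).2 hi
  have : FaithfulSMul R L := (faithfulSMul_iff_algebraMap_injective R L).2 hj
  have : Nontrivial R := i.domain_nontrivial
  have hR : #R ≤ ℵ₀ := by
    refine (Cardinal.mk_le_of_surjective (Ideal.Quotient.mk_surjective (I := RingHom.ker f))).trans ?_
    refine Polynomial.cardinalMk_le_max.trans ?_
    rw [Cardinal.mk_denumerable, max_self]
  obtain ⟨e, he⟩ := EquivAB_aux (R := R) hR hK hKL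
  refine ⟨e, ?_⟩
  have h1 := he (Ideal.Quotient.mk (RingHom.ker f) X)
  have h2 : algebraMap R K (Ideal.Quotient.mk (RingHom.ker f) X) = a := by
    change f X = a
    exact aeval_X a
  have h3 : algebraMap R L (Ideal.Quotient.mk (RingHom.ker f) X) = b := by
    change g X = b
    exact aeval_X b
  rw [h2, h3] at h1
  exact h1

end Pool.Agent.LibTA98
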