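import Pool.Agent.LibTA98.Defs
set_option autoImplicit false
namespace Pool.Agent.LibTA98

private lemma finTr_root {m : Type} [Fintype m] [DecidableEq m] (U : Matrix m m ℂ) {k : ℕ}
    (hU : U ^ k = 1) {w : ℂ} (hw : w ∈ U.charpoly.roots) : w ^ k = 1 := by
  have h1 : Polynomial.IsRoot U.charpoly w := Polynomial.isRoot_of_mem_roots hw
  have h2 : w ∈ spectrum ℂ U := Matrix.mem_spectrum_of_isRoot_charpoly h1
  have h3 : w ^ k ∈ spectrum ℂ (U ^ k) := spectrum.pow_mem_pow U k h2
  rw [hU] at h3
  by_contra hne
  apply spectrum.mem_iff.mp h3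
  have e : algebraMap ℂ (Matrix m m ℂ) (w ^ k) - 1 =
      algebraMap ℂ (Matrix m m ℂ) (w ^ k - 1) := by
    rw [map_sub, map_one]
  rw [e]
  exact (IsUnit.mk0 _ (sub_ne_zero.mpr hne)).map (algebraMap ℂ (Matrix m m ℂ))

private lemma finTr_int {m : Type} [Fintype m] [DecidableEq m] (U : Matrix m m ℂ) {k : ℕ}
    (hk : 0 < k) (hU : U ^ k = 1) : IsIntegral ℤ U.trace := by
  rw [Matrix.trace_eq_sum_roots_charpoly]
  refine IsIntegral.multiset_sum fun w hw => ?_
  refine IsIntegral.of_pow hk ?_
  rw [finTr_root U hU hw]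
  exact isIntegral_one

private lemma finTr_norm {m : Type} [Fintype m] [DecidableEq m] (U : Matrix m m ℂ) {k : ℕ}
    (hk : 0 < k) (hU : U ^ k = 1) : ‖U.trace‖ ≤ Fintype.card m := by
  rw [Matrix.trace_eq_sum_roots_charpoly]
  refine (norm_multiset_sum_le _).trans ?_
  have h1 : (U.charpoly.roots.map fun w => ‖w‖) = U.charpoly.roots.map fun _ => (1 : ℝ) := by
    refine Multiset.map_congr rfl fun w hw => ?_
    have h2 := finTr_root U hU hw
    have h3 : ‖w‖ ^ k = 1 := by rw [← norm_pow, h2, norm_one]
    exact (pow_eq_one_iff_of_nonneg (norm_nonneg w) hk.ne').mp h3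
  rw [h1, Multiset.map_const', Multiset.sum_replicate, nsmul_eq_mul, mul_one]
  have h4 : Multiset.card U.charpoly.roots ≤ U.charpoly.natDegree := Polynomial.card_roots' _
  rw [Matrix.charpoly_natDegree_eq_dim] at h4
  exact_mod_cast h4


/-- Finitely many traces.  Let `F = IntermediateField.adjoin ℚ S`, `S` the finite set of the entries of the `M g`, `g` in a finite generating set closed under inverses: a number field.  All the
`M x` have entries in `F` (closure induction).  `t x = (M x).trace ∈ F` is an algebraic integer (sum of the roots of the characteristic polynomial, which are roots of unity; compare LibCS44/TraceA1), and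
`‖φ (t x)‖ ≤ card m` for every embedding `φ : F →+* ℂ`, as `φ (M x)` is a matrix of finite order, too.  `NumberField.Embeddings.finite_of_norm_le`. -/
theorem finite_traces {H : Type} [Group H] [Group.FG H] {m : Type} [Fintype m] [DecidableEq m]
    (M : H →* Matrix m m ℂ) (halg : ∀ x i j, IsAlgebraic ℚ (M x i j))
    (ht : ∀ x, ∃ k : ℕ, 0 < k ∧ M x ^ k = 1) : (Set.range fun x => (M x).trace).Finite := by
  classical
  obtain ⟨T, hT⟩ : ∃ T : Finset H, Subgroup.closure (T : Set H) = ⊤ :=
    (Group.FG.out : (⊤ : Subgroup H).FG)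
  set S : Set ℂ := Set.range fun q : T × m × m => M q.1 q.2.1 q.2.2 with hS
  have hfin : Finite S := Set.finite_range _
  have hint : ∀ x ∈ S, IsIntegral ℚ x := by
    rintro x ⟨q, rfl⟩
    exact (halg _ _ _).isIntegral
  have hfd : FiniteDimensional ℚ (IntermediateField.adjoin ℚ S) :=
    IntermediateField.finiteDimensional_adjoin hint
  have : NumberField (IntermediateField.adjoin ℚ S) :=
    { to_charZero := inferInstance, to_finiteDimensional := hfd }
  set F := IntermediateField.adjoin ℚ S with hF
  set E : Matrix m m F →+* Matrix m m ℂ := (algebraMap F ℂ).mapMatrix with hE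
  have hEinj : Function.Injective E := by
    intro A B hAB
    ext i j
    have h := congrFun (congrFun hAB i) j
    simp only [hE, RingHom.mapMatrix_apply, Matrix.map_apply] at h
    exact congrArg _ ((algebraMap F ℂ).injective h)
  have hmem : ∀ x : H, M x ∈ E.range := by
    intro x
    have hx : x ∈ Subgroup.closure (T : Set H) := by rw [hT]; trivial
    induction hx using Subgroup.closure_induction with
    | mem g hg =>
      refine ⟨Matrix.of fun i j => ⟨M g i j, IntermediateField.subset_adjoin ℚ S ⟨(⟨g, hg⟩, i, j), rfl⟩⟩, ?_⟩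
      ext i j
      rfl
    | one => rw [map_one]; exact one_mem _
    | mul a b _ _ ha hb => rw [map_mul]; exact mul_mem ha hb
    | inv a _ ha =>
      obtain ⟨k, hk, h1⟩ := ht a
      have h2 : M a⁻¹ = M a ^ (k - 1) := by
        have h3 : M a * M a⁻¹ = 1 := by rw [← map_mul, mul_inv_cancel, map_one]
        calc M a⁻¹ = M a ^ k * M a⁻¹ := by rw [h1, one_mul]
          _ = M a ^ (k - 1) * (M a * M a⁻¹) := by
            rw [← mul_assoc, ← pow_succ, Nat.sub_add_cancel hk]
          _ = M a ^ (k - 1) := by rw [h3, mul_one]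
      rw [h2]
      exact pow_mem ha _
  refine ((NumberField.Embeddings.finite_of_norm_le F ℂ (Fintype.card m : ℝ)).image
    (algebraMap F ℂ)).subset ?_
  rintro _ ⟨x, rfl⟩
  obtain ⟨A, hA⟩ := hmem x
  obtain ⟨k, hk, h1⟩ := ht x
  have hAk : A ^ k = 1 := by
    apply hEinj
    rw [map_pow, hA, h1, map_one]
  have htr : algebraMap F ℂ A.trace = (M x).trace := by
    rw [← hA, hE]
    simp only [Matrix.trace, Matrix.diag, map_sum, RingHom.mapMatrix_apply, Matrix.map_apply]
  refine ⟨A.trace, ⟨?_, fun φ => ?_⟩, htr⟩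
  · have h5 : IsIntegral ℤ (algebraMap F ℂ A.trace) := by
      rw [htr]
      exact finTr_int (M x) hk h1
    exact (isIntegral_algebraMap_iff (algebraMap F ℂ).injective).mp h5
  · have h6 : φ A.trace = (φ.mapMatrix A).trace := by
      simp only [Matrix.trace, Matrix.diag, map_sum, RingHom.mapMatrix_apply, Matrix.map_apply]
    rw [h6]
    refine finTr_norm _ hk ?_
    rw [← map_pow, hAk, map_one]

/-- the trace of a matrix of finite order is algebraic -/
theorem isAlgebraic_trace {m : Type} [Fintype m] [DecidableEq m] (U : Matrix m m ℂ) (k : ℕ)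
    (hk : 0 < k) (hU : U ^ k = 1) : IsAlgebraic ℚ U.trace := by
  exact ((finTr_int U hk hU).tower_top (A := ℚ)).isAlgebraic

end Pool.Agent.LibTA98
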