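import Pool.Agent.LibTA98.Key
import Pool.Agent.LibTA98.AdCase
set_option autoImplicit false
namespace Pool.Agent.LibTA98
open Pool.Agent.LibCSA98 (Reiter VA IsUnRep l1)
open scoped Matrix.Norms.L2Operator

private theorem TAf_l1_eq {X : Type} (f : X →₀ ℝ) (s : Finset X) (hs : f.support ⊆ s) :
    l1 f = ∑ x ∈ s, |f x| :=
  Finsupp.sum_of_support_subset f hs _ (fun _ _ => abs_zero)

private theorem TAf_l1_map {X Y : Type} (φ : X → Y) (f : X →₀ ℝ) :
    l1 (f.mapDomain φ) ≤ l1 f := by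
  classical
  have h0 : (f.mapDomain φ).support ⊆ f.support.image φ := Finsupp.mapDomain_support
  rw [TAf_l1_eq _ _ h0]
  have h1 : ∀ y, |f.mapDomain φ y| ≤ ∑ x ∈ f.support, (if φ x = y then |f x| else 0) := by
    intro y
    have h2 : f.mapDomain φ y = ∑ x ∈ f.support, (if φ x = y then f x else 0) := by
      rw [Finsupp.mapDomain, Finsupp.sum, Finsupp.finsetSum_apply]
      exact Finset.sum_congr rfl fun x _ => Finsupp.single_apply
    rw [h2]
    refine (Finset.abs_sum_le_sum_abs _ _).trans (Finset.sum_le_sum fun x _ => ?_)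
    split_ifs
    · exact le_rfl
    · rw [abs_zero]
  refine (Finset.sum_le_sum fun y _ => h1 y).trans ?_
  rw [Finset.sum_comm]
  show _ ≤ ∑ x ∈ f.support, |f x|
  refine Finset.sum_le_sum fun x hx => ?_
  rw [Finset.sum_ite_eq]
  split_ifs
  · exact le_rfl
  · exact abs_nonneg _

private theorem TAf_l1_map_eq {X Y : Type} (φ : X → Y) (f : X →₀ ℝ) (hf : ∀ x, 0 ≤ f x) :
    (∀ y, 0 ≤ f.mapDomain φ y) ∧ l1 (f.mapDomain φ) = l1 f := by
  classical
  have h2 : ∀ y, f.mapDomain φ y = ∑ x ∈ f.support, (if φ x = y then f x else 0) := by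
    intro y
    rw [Finsupp.mapDomain, Finsupp.sum, Finsupp.finsetSum_apply]
    exact Finset.sum_congr rfl fun x _ => Finsupp.single_apply
  have hn : ∀ y, 0 ≤ f.mapDomain φ y := by
    intro y
    rw [h2]
    refine Finset.sum_nonneg fun x _ => ?_
    split_ifs
    · exact hf x
    · exact le_rfl
  refine ⟨hn, ?_⟩
  have h0 : (f.mapDomain φ).support ⊆ f.support.image φ := Finsupp.mapDomain_support
  rw [TAf_l1_eq _ _ h0, Finset.sum_congr rfl fun y _ => (abs_of_nonneg (hn y)).trans (h2 y),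
    Finset.sum_comm]
  show _ = ∑ x ∈ f.support, |f x|
  refine Finset.sum_congr rfl fun x hx => ?_
  rw [Finset.sum_ite_eq, if_pos (Finset.mem_image_of_mem _ hx), abs_of_nonneg (hf x)]

/-- Reiter's condition passes to subgroups: with a transversal (`G = P T`) let `r : G → P`, `r (p * t) = p`; push forward by `r`, which satisfies `r (p * g) = p * r g` -/
theorem reiter_subgroup {G : Type} [Group G] (hR : Reiter G) (P : Subgroup G) : Reiter P := by
  classical
  let q : G → G := fun g => ((g⁻¹ : G) : G ⧸ P).out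
  have hq : ∀ g, g * q g ∈ P := by
    intro g
    have h1 : ((q g : G) : G ⧸ P) = ((g⁻¹ : G) : G ⧸ P) := Quotient.out_eq _
    have h2 := QuotientGroup.eq.1 h1.symm
    rwa [inv_inv] at h2
  have hqp : ∀ (p : P) (g : G), q ((p : G) * g) = q g := by
    intro p g
    have h1 : (((((p : G) * g)⁻¹ : G)) : G ⧸ P) = ((g⁻¹ : G) : G ⧸ P) := by
      rw [QuotientGroup.eq, inv_inv, mul_assoc, mul_inv_cancel, mul_one]
      exact p.2
    show (((((p : G) * g)⁻¹ : G)) : G ⧸ P).out = _
    rw [h1]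
  let r : G → P := fun g => ⟨g * q g, hq g⟩
  have hr : ∀ (p : P) (g : G), r ((p : G) * g) = p * r g := by
    intro p g
    apply Subtype.ext
    show (p : G) * g * q ((p : G) * g) = p * (g * q g)
    rw [hqp, mul_assoc]
  intro S ε hε
  obtain ⟨f, hf0, hf1, hf⟩ := hR (S.image (fun p : P => (p : G))) ε hε
  obtain ⟨h1, h2⟩ := TAf_l1_map_eq r f hf0
  refine ⟨f.mapDomain r, h1, h2.trans hf1, fun s hs => ?_⟩
  have h3 : (f.mapDomain r).mapDomain (s * ·) - f.mapDomain r =
      (f.mapDomain ((s : G) * ·) - f).mapDomain r := by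
    rw [Finsupp.mapDomain_sub, ← Finsupp.mapDomain_comp, ← Finsupp.mapDomain_comp]
    congr 2
    funext g
    exact (hr s g).symm
  rw [h3]
  exact (TAf_l1_map _ _).trans (hf s (Finset.mem_image_of_mem _ hs))

/-- no strongly irreducible unitary representation in dimension `≥ 2`: an orthonormal basis (`matrix_of_rep`) gives `π`; if it is not `StrIrr` transport the subspace back; otherwise `key`,
`exists_pow_scalar` and `torsion_case` give a contradiction -/
theorem exists_invariant_reiter {G : Type} [Group G] (hR : Reiter G) {V : Type}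
    [NormedAddCommGroup V] [InnerProductSpace ℂ V] [FiniteDimensional ℂ V]
    (ρ : G →* (V →ₗ[ℂ] V)) (hu : IsUnRep ρ) (hV : 2 ≤ Module.finrank ℂ V) :
    ∃ (P : Subgroup G) (W : Submodule ℂ V), P.FiniteIndex ∧ W ≠ ⊥ ∧ W ≠ ⊤ ∧
      ∀ g ∈ P, ∀ w ∈ W, ρ g w ∈ W := by
  let b := stdOrthonormalBasis ℂ V
  obtain ⟨π, hπ⟩ := Pool.Agent.LibCSA98.matrix_of_rep ρ hu b
  have hne : ¬ StrIrr ((unitary (Matrix (Fin (Module.finrank ℂ V))
      (Fin (Module.finrank ℂ V)) ℂ)).subtype.comp π) := by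
    intro hirr
    refine torsion_case hV π (fun g => ?_) hirr
    exact exists_pow_scalar _ (π g).2 (fun z w hz hw => key hR π hirr g z w hz hw)
  rw [StrIrr] at hne
  push Not at hne
  obtain ⟨P, hP, W, hW, hW0, hW1⟩ := hne
  let e : V ≃ₗ[ℂ] (Fin (Module.finrank ℂ V) → ℂ) :=
    b.repr.toLinearEquiv.trans (WithLp.linearEquiv 2 ℂ (Fin (Module.finrank ℂ V) → ℂ))
  have he : ∀ x, e x = WithLp.ofLp (b.repr x) := fun x => rfl
  refine ⟨P, W.comap (e : V →ₗ[ℂ] (Fin (Module.finrank ℂ V) → ℂ)), hP, ?_, ?_, ?_⟩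
  · intro h
    apply hW0
    rw [eq_bot_iff]
    intro w hw
    have h1 : e.symm w ∈ W.comap (e : V →ₗ[ℂ] (Fin (Module.finrank ℂ V) → ℂ)) := by
      show e (e.symm w) ∈ W
      rw [e.apply_symm_apply]
      exact hw
    rw [h, Submodule.mem_bot] at h1
    rw [Submodule.mem_bot, ← e.apply_symm_apply w, h1, map_zero]
  · intro h
    apply hW1
    rw [eq_top_iff]
    intro w _
    have h1 : e.symm w ∈ W.comap (e : V →ₗ[ℂ] (Fin (Module.finrank ℂ V) → ℂ)) := by
      rw [h]; exact Submodule.mem_top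
    have h2 : e (e.symm w) ∈ W := h1
    rwa [e.apply_symm_apply] at h2
  · intro g hg w hw
    have h1 : e w ∈ W := hw
    show e (ρ g w) ∈ W
    rw [he, ← hπ, ← he]
    exact hW g hg _ h1

/-- the induction of `virt_abelian_aux` (LibCS44/VA2), with `exists_invariant_reiter` and `reiter_subgroup` in place of `exists_invariant` for solvable groups -/
theorem va_aux (k : ℕ) : ∀ (G : Type) [Group G] (_ : Reiter G) (V : Type)
    [NormedAddCommGroup V] [InnerProductSpace ℂ V] [FiniteDimensional ℂ V]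
    (ρ : G →* (V →ₗ[ℂ] V)) (_ : IsUnRep ρ), Module.finrank ℂ V ≤ k →
    ∃ P : Subgroup G, P.FiniteIndex ∧ ∀ x ∈ P, ∀ y ∈ P, ρ x * ρ y = ρ y * ρ x := by
  induction k with
  | zero =>
    intro G _ hG V _ _ _ ρ hu hk
    have hsub : Subsingleton V := (Module.finrank_zero_iff (R := ℂ)).1 (by omega)
    refine ⟨⊤, inferInstance, fun x _ y _ => ?_⟩
    ext v
    exact Subsingleton.elim _ _
  | succ k ih =>
    intro G _ hG V _ _ _ ρ hu hk
    by_cases h2 : 2 ≤ Module.finrank ℂ V
    · obtain ⟨P, W, hP, hW0, hW1, hWP⟩ := exists_invariant_reiter hG ρ hu h2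
      have hWlt : Module.finrank ℂ W < Module.finrank ℂ V := Submodule.finrank_lt hW1
      have hWpos : 0 < Module.finrank ℂ W := by
        have : Nontrivial W := (Submodule.nontrivial_iff_ne_bot).2 hW0
        exact Module.finrank_pos
      have hsum := Submodule.finrank_add_finrank_orthogonal W
      have hOP : ∀ g ∈ P, ∀ w ∈ Wᗮ, ρ g w ∈ Wᗮ := by
        intro g hg w hw
        rw [Submodule.mem_orthogonal] at hw ⊢
        intro u hu'
        have h1 := hw _ (hWP g⁻¹ (P.inv_mem hg) u hu')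
        have h3 := hu g (ρ g⁻¹ u) w
        rw [← Module.End.mul_apply, ← map_mul, mul_inv_cancel, map_one, Module.End.one_apply] at h3
        rw [h3, h1]
      have hPs : Reiter P := reiter_subgroup hG P
      obtain ⟨σ, hσ, hσu⟩ := Pool.Agent.LibCS44.va2_restrict ρ hu P W hWP
      obtain ⟨τ, hτ, hτu⟩ := Pool.Agent.LibCS44.va2_restrict ρ hu P Wᗮ hOP
      obtain ⟨P1, hP1, hP1c⟩ := ih P hPs W σ hσu (by omega)
      obtain ⟨P2, hP2, hP2c⟩ := ih P hPs Wᗮ τ hτu (by omega)
      refine ⟨(P1 ⊓ P2).map P.subtype, ?_, ?_⟩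
      · refine ⟨?_⟩
        rw [Subgroup.index_map_subtype]
        exact mul_ne_zero Subgroup.FiniteIndex.index_ne_zero hP.index_ne_zero
      · rintro _ ⟨x, ⟨hx1, hx2⟩, rfl⟩ _ ⟨y, ⟨hy1, hy2⟩, rfl⟩
        ext v
        obtain ⟨w, hw, u, hu', rfl⟩ := W.exists_add_mem_mem_orthogonal v
        have e1 := congrArg (fun T : W →ₗ[ℂ] W => (T ⟨w, hw⟩ : V)) (hP1c x hx1 y hy1)
        have e2 := congrArg (fun T : Wᗮ →ₗ[ℂ] Wᗮ => (T ⟨u, hu'⟩ : V)) (hP2c x hx2 y hy2)
        simp only [Module.End.mul_apply, hσ, hτ] at e1 e2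
        simp only [Module.End.mul_apply, map_add, Subgroup.coe_subtype]
        rw [e1, e2]
    · have h1 : Module.finrank ℂ V ≤ 1 := by omega
      obtain ⟨v, hv⟩ := finrank_le_one_iff.1 h1
      refine ⟨⊤, inferInstance, fun x _ y _ => ?_⟩
      obtain ⟨c, hc⟩ := hv (ρ x v)
      obtain ⟨d, hd⟩ := hv (ρ y v)
      ext w
      obtain ⟨e, rfl⟩ := hv w
      simp only [Module.End.mul_apply, map_smul, ← hc, ← hd, smul_smul]
      rw [mul_comm c d]

/-- finite-dimensional unitary representations of amenable groups have virtually abelian images (amenable case of the Tits alternative for unitary groups) -/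
theorem va_of_reiter {G : Type} [Group G] (hR : Reiter G) : VA G := by
  intro n _ _ π
  obtain ⟨ρ, hρ, hπ⟩ := Pool.Agent.LibCSA98.rep_of_matrix π
  obtain ⟨P, hP, hc⟩ := va_aux _ G hR (EuclideanSpace ℂ n) ρ hρ le_rfl
  refine ⟨P, hP, fun x hx y hy => ?_⟩
  apply Subtype.ext
  apply (Matrix.toLin' (R := ℂ) (m := n) (n := n)).injective
  refine LinearMap.ext fun v => ?_
  have h1 := congrArg (fun T : EuclideanSpace ℂ n →ₗ[ℂ] EuclideanSpace ℂ n =>
    WithLp.ofLp (T (WithLp.toLp 2 v))) (hc x hx y hy)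
  simp only [Module.End.mul_apply, hπ] at h1
  rw [Matrix.mulVec_mulVec, Matrix.mulVec_mulVec] at h1
  rw [Matrix.toLin'_apply, Matrix.toLin'_apply]
  exact h1

end Pool.Agent.LibTA98
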