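import Pool.Agent.LibTA98.Defs
set_option autoImplicit false
namespace Pool.Agent.LibTA98

private theorem lin_mulVec_le {k : Type} [NormedField k] {m n : Type} [Fintype m] [Fintype n]
    (A : Matrix m n k) (v : n → k) :
    ‖A.mulVec v‖ ≤ (∑ i, ∑ j, ‖A i j‖) * ‖v‖ := by
  rw [pi_norm_le_iff_of_nonneg (by positivity)]
  intro i
  calc ‖A.mulVec v i‖ ≤ ∑ j, ‖A i j * v j‖ := norm_sum_le _ _
    _ ≤ ∑ j, ‖A i j‖ * ‖v‖ := by
        refine Finset.sum_le_sum fun j _ => ?_
        rw [norm_mul]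
        exact mul_le_mul_of_nonneg_left (norm_le_pi_norm v j) (norm_nonneg _)
    _ = (∑ j, ‖A i j‖) * ‖v‖ := by rw [Finset.sum_mul]
    _ ≤ _ := by
        refine mul_le_mul_of_nonneg_right ?_ (norm_nonneg _)
        exact Finset.single_le_sum (f := fun i => ∑ j, ‖A i j‖) (fun i _ => by positivity)
          (Finset.mem_univ i)

private theorem lin_left_inv {G : Type} {d : ℕ} (H : Finset G)
    (A : G → Matrix (Fin d) (Fin d) ℂ)
    (hA : ∀ x : Fin d → ℂ, (∀ h ∈ H, (A h).mulVec x = 0) → x = 0) :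
    ∃ L : G → Matrix (Fin d) (Fin d) ℂ, ∑ h ∈ H, L h * A h = 1 := by
  classical
  let f : (Fin d → ℂ) →ₗ[ℂ] (H → Fin d → ℂ) := LinearMap.pi (fun h => (A h.1).mulVecLin)
  have hf : LinearMap.ker f = ⊥ := by
    rw [LinearMap.ker_eq_bot']
    intro x hx
    refine hA x fun h hh => ?_
    have := congrFun hx ⟨h, hh⟩
    simpa [f] using this
  obtain ⟨g, hg⟩ := LinearMap.exists_leftInverse_of_injective f hf
  refine ⟨fun h => if hh : h ∈ H then
    LinearMap.toMatrix' (g ∘ₗ LinearMap.single ℂ (fun _ : H => Fin d → ℂ) ⟨h, hh⟩) else 0, ?_⟩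
  apply Matrix.toLin'.injective
  apply LinearMap.ext
  intro x
  rw [← Finset.sum_coe_sort H]
  simp only [map_sum, LinearMap.sum_apply,
    Matrix.toLin'_mul, LinearMap.comp_apply, Matrix.toLin'_one, LinearMap.id_apply]
  have h0 : ∀ h : H, (Matrix.toLin' (if hh : h.1 ∈ H then LinearMap.toMatrix'
      (g ∘ₗ LinearMap.single ℂ (fun _ : H => Fin d → ℂ) ⟨h.1, hh⟩) else 0))
        ((Matrix.toLin' (A h.1)) x) =
      g ((LinearMap.single ℂ (fun _ : H => Fin d → ℂ) h) ((Matrix.toLin' (A h.1)) x)) := by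
    intro h
    rw [dif_pos h.2, Matrix.toLin'_toMatrix']
    rfl
  rw [Finset.sum_congr rfl fun h _ => h0 h, ← map_sum]
  have h1 : ∑ h : H, (LinearMap.single ℂ (fun _ : H => Fin d → ℂ) h)
      ((Matrix.toLin' (A h.1)) x) = f x := by
    have : f x = fun h : H => (Matrix.toLin' (A h.1)) x := by
      funext h
      simp [f]
    rw [this]
    simp only [LinearMap.coe_single]
    exact Finset.univ_sum_single (fun h : H => (Matrix.toLin' (A h.1)) x)
  rw [h1]
  exact LinearMap.congr_fun hg x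

/-- For every `s : H → Bool` the linear map `x ↦ ((if s h then P else Q) * R h) x`, `h ∈ H`, is injective, so it has a left inverse: `∑ h ∈ H, L h * ((if s h then P else Q) * R h) = 1` for some
matrices `L h`.  Apply `σ`: `‖y‖ ≤ C ∑ h ∈ H, ‖σ(if s h then P else Q) (σR(h) y)‖` for the sup norm, with `C` valid for all the finitely many `s`.  If for all `h ∈ H` one of the two
inequalities holds, let `s h = true` if the first one does (the one for `P`) and `false` otherwise: the sum is at most `δ C' ‖y‖`, a contradiction for small `δ`. -/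
theorem exists_delta {k : Type} [NormedField k] (σ : ℂ →+* k) {G : Type} [Group G] {d : ℕ}
    (R : G →* Matrix (Fin d) (Fin d) ℂ) (P Q : Matrix (Fin d) (Fin d) ℂ) (H : Finset G)
    (hH : ∀ s : G → Bool, ∀ x : Fin d → ℂ,
      (∀ h ∈ H, (if s h then P else Q).mulVec ((R h).mulVec x) = 0) → x = 0) :
    ∃ δ : ℝ, 0 < δ ∧ δ ≤ 1 ∧ ∀ y : Fin d → k, y ≠ 0 → ∃ h ∈ H,
      ¬ (‖(σ.mapMatrix P).mulVec ((σ.mapMatrix (R h)).mulVec y)‖ <
          δ * ‖(σ.mapMatrix Q).mulVec ((σ.mapMatrix (R h)).mulVec y)‖ ∨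
        ‖(σ.mapMatrix Q).mulVec ((σ.mapMatrix (R h)).mulVec y)‖ <
          δ * ‖(σ.mapMatrix P).mulVec ((σ.mapMatrix (R h)).mulVec y)‖) := by
  classical
  -- extension of a function on `H`
  let ext : (H → Bool) → G → Bool := fun t g => if hg : g ∈ H then t ⟨g, hg⟩ else false
  have hL : ∀ t : H → Bool, ∃ L : G → Matrix (Fin d) (Fin d) ℂ,
      ∑ h ∈ H, L h * ((if ext t h then P else Q) * R h) = 1 := by
    intro t
    refine lin_left_inv H (fun h => (if ext t h then P else Q) * R h) fun x hx => ?_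
    refine hH (ext t) x fun h hh => ?_
    have := hx h hh
    rw [Matrix.mulVec_mulVec]
    exact this
  choose L hL using hL
  let op : Matrix (Fin d) (Fin d) k → ℝ := fun A => ∑ i, ∑ j, ‖A i j‖
  have hop : ∀ A : Matrix (Fin d) (Fin d) k, 0 ≤ op A := fun A => by positivity
  let C : ℝ := ∑ t : H → Bool, ∑ h ∈ H, op (σ.mapMatrix (L t h))
  have hC0 : 0 ≤ C := Finset.sum_nonneg fun t _ => Finset.sum_nonneg fun h _ => hop _
  let M : ℝ := ∑ h ∈ H, (op (σ.mapMatrix P) + op (σ.mapMatrix Q)) * op (σ.mapMatrix (R h))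
  have hM0 : 0 ≤ M := Finset.sum_nonneg fun h _ => mul_nonneg (add_nonneg (hop _) (hop _)) (hop _)
  have hCM : 0 ≤ C * M := mul_nonneg hC0 hM0
  refine ⟨1 / (1 + C * M), by positivity, ?_, ?_⟩
  · rw [div_le_one (by positivity)]
    linarith
  intro y hy
  by_contra hcon
  push Not at hcon
  set δ : ℝ := 1 / (1 + C * M) with hδ
  have hδ0 : 0 < δ := by positivity
  let t : H → Bool := fun h => decide
    (‖(σ.mapMatrix P).mulVec ((σ.mapMatrix (R h.1)).mulVec y)‖ <
          δ * ‖(σ.mapMatrix Q).mulVec ((σ.mapMatrix (R h.1)).mulVec y)‖)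
  have hyn : 0 < ‖y‖ := norm_pos_iff.mpr hy
  have hle : ∀ h ∈ H, ∀ Z : Matrix (Fin d) (Fin d) ℂ, Z = P ∨ Z = Q →
      ‖(σ.mapMatrix Z).mulVec ((σ.mapMatrix (R h)).mulVec y)‖ ≤ M * ‖y‖ := by
    intro h hh Z hZ
    have hZop : op (σ.mapMatrix Z) ≤ op (σ.mapMatrix P) + op (σ.mapMatrix Q) := by
      rcases hZ with rfl | rfl
      · linarith [hop (σ.mapMatrix Q)]
      · linarith [hop (σ.mapMatrix P)]
    calc ‖(σ.mapMatrix Z).mulVec ((σ.mapMatrix (R h)).mulVec y)‖
        ≤ op (σ.mapMatrix Z) * ‖(σ.mapMatrix (R h)).mulVec y‖ := lin_mulVec_le _ _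
      _ ≤ op (σ.mapMatrix Z) * (op (σ.mapMatrix (R h)) * ‖y‖) :=
          mul_le_mul_of_nonneg_left (lin_mulVec_le _ _) (hop _)
      _ ≤ (op (σ.mapMatrix P) + op (σ.mapMatrix Q)) * (op (σ.mapMatrix (R h)) * ‖y‖) :=
          mul_le_mul_of_nonneg_right hZop (mul_nonneg (hop _) (norm_nonneg _))
      _ = ((op (σ.mapMatrix P) + op (σ.mapMatrix Q)) * op (σ.mapMatrix (R h))) * ‖y‖ := by ring
      _ ≤ M * ‖y‖ := by
          refine mul_le_mul_of_nonneg_right ?_ (norm_nonneg _)
          exact Finset.single_le_sum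
            (f := fun h => (op (σ.mapMatrix P) + op (σ.mapMatrix Q)) * op (σ.mapMatrix (R h)))
            (fun h _ => mul_nonneg (add_nonneg (hop _) (hop _)) (hop _)) hh
  have hsmall : ∀ h ∈ H, ‖(σ.mapMatrix (if ext t h then P else Q)).mulVec
      ((σ.mapMatrix (R h)).mulVec y)‖ ≤ δ * (M * ‖y‖) := by
    intro h hh
    by_cases hc : ‖(σ.mapMatrix P).mulVec ((σ.mapMatrix (R h)).mulVec y)‖ <
          δ * ‖(σ.mapMatrix Q).mulVec ((σ.mapMatrix (R h)).mulVec y)‖
    · have he : ext t h = true := by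
        simp only [ext, hh, dite_true, t, decide_eq_true_eq]
        exact hc
      rw [he, if_pos rfl]
      exact hc.le.trans (mul_le_mul_of_nonneg_left (hle h hh Q (Or.inr rfl)) hδ0.le)
    · have he : ext t h = false := by
        simp only [ext, hh, dite_true, t, decide_eq_false_iff_not]
        exact hc
      rw [he, if_neg (by simp)]
      have h2 := (hcon h hh).resolve_left hc
      exact h2.le.trans (mul_le_mul_of_nonneg_left (hle h hh P (Or.inl rfl)) hδ0.le)
  have hy1 : y = ∑ h ∈ H, (σ.mapMatrix (L t h)).mulVec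
      ((σ.mapMatrix (if ext t h then P else Q)).mulVec ((σ.mapMatrix (R h)).mulVec y)) := by
    have h1 : ∑ h ∈ H, σ.mapMatrix (L t h) *
        (σ.mapMatrix (if ext t h then P else Q) * σ.mapMatrix (R h)) = 1 := by
      have := congrArg (σ.mapMatrix) (hL t)
      rw [map_sum, map_one] at this
      simpa only [map_mul] using this
    have h2 := congrArg (fun A : Matrix (Fin d) (Fin d) k => A.mulVec y) h1
    simp only [Matrix.one_mulVec, Matrix.sum_mulVec, ← Matrix.mulVec_mulVec] at h2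
    exact h2.symm
  have hfin : ‖y‖ ≤ C * (δ * (M * ‖y‖)) := by
    calc ‖y‖ ≤ ∑ h ∈ H, ‖(σ.mapMatrix (L t h)).mulVec
            ((σ.mapMatrix (if ext t h then P else Q)).mulVec ((σ.mapMatrix (R h)).mulVec y))‖ := by
          have h6 := norm_sum_le H (fun h => (σ.mapMatrix (L t h)).mulVec
            ((σ.mapMatrix (if ext t h then P else Q)).mulVec ((σ.mapMatrix (R h)).mulVec y)))
          rw [← hy1] at h6
          exact h6
      _ ≤ ∑ h ∈ H, op (σ.mapMatrix (L t h)) * (δ * (M * ‖y‖)) := by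
          refine Finset.sum_le_sum fun h hh => ?_
          exact (lin_mulVec_le _ _).trans (mul_le_mul_of_nonneg_left (hsmall h hh) (hop _))
      _ = (∑ h ∈ H, op (σ.mapMatrix (L t h))) * (δ * (M * ‖y‖)) :=
          (Finset.sum_mul H (fun h => op (σ.mapMatrix (L t h))) (δ * (M * ‖y‖))).symm
      _ ≤ C * (δ * (M * ‖y‖)) := by
          refine mul_le_mul_of_nonneg_right ?_ (by positivity)
          exact Finset.single_le_sum (f := fun t => ∑ h ∈ H, op (σ.mapMatrix (L t h)))
            (fun t _ => Finset.sum_nonneg fun h _ => hop _) (Finset.mem_univ t)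
  have hlt : C * (δ * (M * ‖y‖)) < ‖y‖ := by
    have h4 : C * (δ * (M * ‖y‖)) = (C * M) / (1 + C * M) * ‖y‖ := by
      rw [hδ]; ring
    rw [h4]
    have h3 : (C * M) / (1 + C * M) < 1 := by
      rw [div_lt_one (by positivity)]
      linarith
    have h5 := mul_lt_mul_of_pos_right h3 hyn
    rw [one_mul] at h5
    exact h5
  exact absurd hfin (not_le.mpr hlt)

end Pool.Agent.LibTA98
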