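import Pool.Agent.LibTA98.Defs
set_option autoImplicit false
namespace Pool.Agent.LibTA98

/-- the linear map of `R g` -/
private noncomputable def trL {G : Type} [Group G] {d : ℕ} (R : G →* Matrix (Fin d) (Fin d) ℂ) (g : G) :
    (Fin d → ℂ) →ₗ[ℂ] (Fin d → ℂ) := (R g).mulVecLin

private lemma trL_apply {G : Type} [Group G] {d : ℕ} (R : G →* Matrix (Fin d) (Fin d) ℂ) (g : G)
    (x : Fin d → ℂ) : trL R g x = (R g).mulVec x := rfl

private lemma trL_mul {G : Type} [Group G] {d : ℕ} (R : G →* Matrix (Fin d) (Fin d) ℂ) (g h : G) :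
    trL R (g * h) = (trL R g).comp (trL R h) := by
  ext1 x
  simp [trL, map_mul, Matrix.mulVecLin_mul]

private lemma trL_one {G : Type} [Group G] {d : ℕ} (R : G →* Matrix (Fin d) (Fin d) ℂ) :
    trL R (1 : G) = LinearMap.id := by
  simp [trL]

/-- the linear equivalence of `R g` -/
private noncomputable def trE {G : Type} [Group G] {d : ℕ} (R : G →* Matrix (Fin d) (Fin d) ℂ) (g : G) :
    (Fin d → ℂ) ≃ₗ[ℂ] (Fin d → ℂ) :=
  LinearEquiv.ofLinear (trL R g) (trL R g⁻¹)
    (by rw [← trL_mul, mul_inv_cancel, trL_one]) (by rw [← trL_mul, inv_mul_cancel, trL_one])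

private lemma trE_coe {G : Type} [Group G] {d : ℕ} (R : G →* Matrix (Fin d) (Fin d) ℂ) (g : G) :
    (trE R g : (Fin d → ℂ) →ₗ[ℂ] (Fin d → ℂ)) = trL R g := rfl

private lemma trE_comap_finrank {G : Type} [Group G] {d : ℕ} (R : G →* Matrix (Fin d) (Fin d) ℂ)
    (g : G) (W : Submodule ℂ (Fin d → ℂ)) :
    Module.finrank ℂ (W.comap (trL R g)) = Module.finrank ℂ W := by
  rw [← trE_coe, Submodule.comap_equiv_eq_map_symm]
  exact LinearEquiv.finrank_map_eq _ _

/-- the subspaces of the trap -/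
private noncomputable def trW {G : Type} [Group G] {d : ℕ} (R : G →* Matrix (Fin d) (Fin d) ℂ)
    (P Q : Matrix (Fin d) (Fin d) ℂ) (H : Finset G) (s : G → Bool) : Submodule ℂ (Fin d → ℂ) :=
  ⨅ h ∈ H, LinearMap.ker (((if s h then P else Q).mulVecLin).comp (trL R h))

private lemma mem_trW {G : Type} [Group G] {d : ℕ} (R : G →* Matrix (Fin d) (Fin d) ℂ)
    (P Q : Matrix (Fin d) (Fin d) ℂ) (H : Finset G) (s : G → Bool) (x : Fin d → ℂ) :
    x ∈ trW R P Q H s ↔ ∀ h ∈ H, (if s h then P else Q).mulVec ((R h).mulVec x) = 0 := by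
  simp only [trW, Submodule.mem_iInf, LinearMap.mem_ker, LinearMap.comp_apply, Matrix.mulVecLin_apply,
    trL_apply]

private lemma trW_anti {G : Type} [Group G] {d : ℕ} (R : G →* Matrix (Fin d) (Fin d) ℂ)
    (P Q : Matrix (Fin d) (Fin d) ℂ) {H H' : Finset G} (hH : H ⊆ H') (s : G → Bool) :
    trW R P Q H' s ≤ trW R P Q H s := by
  intro x hx
  rw [mem_trW] at hx ⊢
  exact fun h hh => hx h (hH hh)

private lemma trW_mul {G : Type} [Group G] [DecidableEq G] {d : ℕ}
    (R : G →* Matrix (Fin d) (Fin d) ℂ)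
    (P Q : Matrix (Fin d) (Fin d) ℂ) (H : Finset G) (g : G) (s : G → Bool) :
    trW R P Q (H.image (· * g)) s = (trW R P Q H (fun k => s (k * g))).comap (trL R g) := by
  ext x
  rw [Submodule.mem_comap, mem_trW, mem_trW]
  constructor
  · intro h k hk
    have h1 := h (k * g) (Finset.mem_image_of_mem _ hk)
    rw [map_mul, ← Matrix.mulVec_mulVec] at h1
    rw [trL_apply]
    exact h1
  · intro h k' hk'
    rw [Finset.mem_image] at hk'
    obtain ⟨k, hk, rfl⟩ := hk'
    have h1 := h k hk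
    rw [map_mul, ← Matrix.mulVec_mulVec]
    rw [trL_apply] at h1
    exact h1

private lemma trW_range_finite {G : Type} [Group G] {d : ℕ} (R : G →* Matrix (Fin d) (Fin d) ℂ)
    (P Q : Matrix (Fin d) (Fin d) ℂ) (H : Finset G) : (Set.range (trW R P Q H)).Finite := by
  classical
  refine (Set.finite_range (fun t : H → Bool =>
    trW R P Q H (fun g => if hg : g ∈ H then t ⟨g, hg⟩ else true))).subset ?_
  rintro W ⟨s, rfl⟩
  refine ⟨fun h => s h, ?_⟩
  ext x
  rw [mem_trW, mem_trW]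
  refine forall₂_congr fun h hh => ?_
  simp [hh]

/-- Finite traps.  For a finite set `H` and `s : G → Bool` let `W H s = {x | ∀ h ∈ H, (if s h then P else Q) (R h x) = 0}`, let `d H` be the maximum over `s` of `dim (W H s)` and `𝒲 H` the finite set of
the `W H s` of the dimension `d₀ = min_H (d H)`.  If `d₀ ≥ 1`: among the `H` with `d H = d₀` take one with `card (𝒲 H)` minimal.  For `H' ⊇ H`: `W H' s ⊆ W H s`, so `𝒲 H' ⊆ 𝒲 H`, and `𝒲 H' = 𝒲 H` by
minimality.  `𝒲 (H g) = R(g)⁻¹ 𝒲 H` for `H g = {h g | h ∈ H}`, and `𝒲 (H ∪ H g)` is contained in `𝒲 (H g)`, which has the same cardinality: so `R(g)⁻¹` permutes the finite nonempty set `𝒲 H`.  The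
stabilizer of an element `W` has finite index, `W ≠ ⊥`, and `W ≠ ⊤` because `H ≠ ∅` (`d {1} < d ∅`) and `P`, `Q ≠ 0`: contradiction to `StrIrr`. -/
theorem exists_trap {G : Type} [Group G] {d : ℕ} (R : G →* Matrix (Fin d) (Fin d) ℂ)
    (hR : StrIrr R) (P Q : Matrix (Fin d) (Fin d) ℂ) (hP : P ≠ 0) (hQ : Q ≠ 0) :
    ∃ H : Finset G, ∀ s : G → Bool, ∀ x : Fin d → ℂ,
      (∀ h ∈ H, (if s h then P else Q).mulVec ((R h).mulVec x) = 0) → x = 0 := by
  classical
  -- the minimal dimension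
  have hex : ∃ n : ℕ, ∃ H : Finset G, ∀ s, Module.finrank ℂ (trW R P Q H s) ≤ n := by
    refine ⟨d, ∅, fun s => ?_⟩
    have h := Submodule.finrank_le (trW R P Q ∅ s)
    rwa [Module.finrank_fin_fun] at h
  set d₀ := Nat.find hex with hd₀
  obtain ⟨H₀, hH₀⟩ := Nat.find_spec hex
  rw [← hd₀] at hH₀
  by_cases hz : d₀ = 0
  · refine ⟨H₀, fun s x hx => ?_⟩
    have h1 : trW R P Q H₀ s = ⊥ := by
      have h2 := hH₀ s
      rw [hz, Nat.le_zero] at h2
      exact Submodule.finrank_eq_zero.mp h2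
    have h3 : x ∈ trW R P Q H₀ s := (mem_trW R P Q H₀ s x).mpr hx
    rw [h1] at h3
    simpa using h3
  exfalso
  have hlow : ∀ H : Finset G, ∃ s, d₀ ≤ Module.finrank ℂ (trW R P Q H s) := by
    intro H
    by_contra hno
    push Not at hno
    have h1 : d₀ - 1 < d₀ := by omega
    refine Nat.find_min hex h1 ⟨H, fun s => ?_⟩
    have := hno s
    omega
  -- the finite sets of subspaces
  set 𝒲 : Finset G → Set (Submodule ℂ (Fin d → ℂ)) := fun H =>
    {W | ∃ s, trW R P Q H s = W ∧ Module.finrank ℂ W = d₀} with h𝒲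
  have hfin : ∀ H, (𝒲 H).Finite := fun H =>
    (trW_range_finite R P Q H).subset (by rintro W ⟨s, rfl, _⟩; exact ⟨s, rfl⟩)
  have hex2 : ∃ n : ℕ, ∃ H : Finset G, (∀ s, Module.finrank ℂ (trW R P Q H s) ≤ d₀) ∧
      (𝒲 H).ncard = n := ⟨_, H₀, hH₀, rfl⟩
  set N := Nat.find hex2 with hN
  obtain ⟨H, hH, hHN⟩ := Nat.find_spec hex2
  rw [← hN] at hHN
  have hmin : ∀ H' : Finset G, (∀ s, Module.finrank ℂ (trW R P Q H' s) ≤ d₀) → N ≤ (𝒲 H').ncard := by
    intro H' h
    by_contra hlt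
    push Not at hlt
    exact Nat.find_min hex2 hlt ⟨H', h, rfl⟩
  have hsub : ∀ H₁ H₂ : Finset G, (∀ s, Module.finrank ℂ (trW R P Q H₁ s) ≤ d₀) → H₁ ⊆ H₂ →
      𝒲 H₂ ⊆ 𝒲 H₁ := by
    rintro H₁ H₂ h1 h12 W ⟨s, rfl, hs⟩
    have h3 : trW R P Q H₂ s = trW R P Q H₁ s :=
      Submodule.eq_of_le_of_finrank_le (trW_anti R P Q h12 s) (by rw [hs]; exact h1 s)
    exact ⟨s, h3.symm, hs⟩
  have hgood : ∀ g : G, ∀ s, Module.finrank ℂ (trW R P Q (H.image (· * g)) s) ≤ d₀ := by
    intro g s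
    rw [trW_mul, trE_comap_finrank]
    exact hH _
  have himg : ∀ g : G, 𝒲 (H.image (· * g)) = (fun W => W.comap (trL R g)) '' (𝒲 H) := by
    intro g
    ext W
    constructor
    · rintro ⟨s, rfl, hs⟩
      rw [trW_mul, trE_comap_finrank] at hs
      exact ⟨_, ⟨_, rfl, hs⟩, (trW_mul R P Q H g s).symm⟩
    · rintro ⟨W', ⟨s, rfl, hs⟩, rfl⟩
      refine ⟨fun k => s (k * g⁻¹), ?_, ?_⟩
      · rw [trW_mul]
        simp
      · simp only
        rw [trE_comap_finrank]
        exact hs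
  have hperm : ∀ g : G, (fun W => W.comap (trL R g)) '' (𝒲 H) = 𝒲 H := by
    intro g
    have h1 : 𝒲 (H ∪ H.image (· * g)) ⊆ 𝒲 H := hsub _ _ hH Finset.subset_union_left
    have h2 : 𝒲 (H ∪ H.image (· * g)) ⊆ 𝒲 (H.image (· * g)) :=
      hsub _ _ (hgood g) Finset.subset_union_right
    have h3 : N ≤ (𝒲 (H ∪ H.image (· * g))).ncard := by
      refine hmin _ fun s => ?_
      exact (Submodule.finrank_mono (trW_anti R P Q Finset.subset_union_left s)).trans (hH s)
    have h4 : 𝒲 (H ∪ H.image (· * g)) = 𝒲 H :=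
      Set.eq_of_subset_of_ncard_le h1 (by rw [hHN]; exact h3) (hfin _)
    have h5 : 𝒲 (H ∪ H.image (· * g)) = 𝒲 (H.image (· * g)) := by
      refine Set.eq_of_subset_of_ncard_le h2 ?_ (hfin _)
      rw [himg]
      exact (Set.ncard_image_le (hfin _)).trans (by rw [hHN]; exact h3)
    rw [← himg, ← h5, h4]
  -- an element of the set
  obtain ⟨s₁, hs₁⟩ := hlow H
  have hs₁' : Module.finrank ℂ (trW R P Q H s₁) = d₀ := le_antisymm (hH s₁) hs₁
  set W := trW R P Q H s₁ with hW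
  have hWmem : W ∈ 𝒲 H := ⟨s₁, rfl, hs₁'⟩
  letI act : MulAction G (Submodule ℂ (Fin d → ℂ)) :=
    { smul := fun g V => V.comap (trL R g⁻¹)
      one_smul := fun V => by
        change V.comap (trL R (1 : G)⁻¹) = V
        rw [inv_one, trL_one, Submodule.comap_id]
      mul_smul := fun g h V => by
        change V.comap (trL R (g * h)⁻¹) = (V.comap (trL R h⁻¹)).comap (trL R g⁻¹)
        rw [mul_inv_rev, trL_mul, Submodule.comap_comp] }
  have hsmul : ∀ (g : G) (V : Submodule ℂ (Fin d → ℂ)), g • V = V.comap (trL R g⁻¹) :=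
    fun _ _ => rfl
  have horb : (MulAction.orbit G W).Finite := by
    refine (hfin H).subset ?_
    rintro V ⟨g, rfl⟩
    simp only
    rw [hsmul, ← hperm g⁻¹]
    exact ⟨W, hWmem, rfl⟩
  have hidx : (MulAction.stabilizer G W).FiniteIndex := by
    refine ⟨?_⟩
    rw [MulAction.index_stabilizer]
    intro h0
    rw [Set.ncard_eq_zero horb] at h0
    exact (MulAction.nonempty_orbit (M := G) W).ne_empty h0
  rcases hR _ hidx W (by
    intro g hg w hw
    have h1 : g⁻¹ • W = W := (MulAction.stabilizer G W).inv_mem hg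
    rw [hsmul, inv_inv] at h1
    rw [← h1] at hw
    exact hw) with h | h
  · rw [h] at hs₁'
    simp only [finrank_bot] at hs₁'
    exact hz hs₁'.symm
  · rw [h, finrank_top, Module.finrank_fin_fun] at hs₁'
    obtain ⟨s₂, hs₂⟩ := hlow {1}
    rw [← hs₁'] at hs₂
    have h6 : trW R P Q {1} s₂ = ⊤ :=
      Submodule.eq_top_of_finrank_eq (le_antisymm (Submodule.finrank_le _)
        (by rw [Module.finrank_fin_fun]; exact hs₂))
    have h7 : (if s₂ 1 then P else Q) = 0 := by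
      ext i j
      have h8 : (Pi.single j 1 : Fin d → ℂ) ∈ trW R P Q {1} s₂ := by rw [h6]; trivial
      rw [mem_trW] at h8
      have h9 := h8 1 (Finset.mem_singleton_self 1)
      rw [map_one, Matrix.one_mulVec, Matrix.mulVec_single_one] at h9
      exact congrFun h9 i
    by_cases hb : s₂ 1 = true
    · rw [if_pos hb] at h7
      exact hP h7
    · rw [if_neg hb] at h7
      exact hQ h7

end Pool.Agent.LibTA98
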