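import Pool.Agent.LibTA98.Value
import Pool.Agent.LibTA98.Dom
import Pool.Agent.LibTA98.Act
import Pool.Agent.LibTA98.Trap
import Pool.Agent.LibTA98.Lin
set_option autoImplicit false
namespace Pool.Agent.LibTA98
open Pool.Agent.LibCSA98 (Reiter)

private theorem key_eig_ne_zero {d : ℕ} (U : unitary (Matrix (Fin d) (Fin d) ℂ)) (z : ℂ)
    (hz : IsEig (U : Matrix (Fin d) (Fin d) ℂ) z) : z ≠ 0 := by
  rintro rfl
  obtain ⟨x, hx, h⟩ := hz
  apply hx
  rw [zero_smul] at h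
  have h1 : star (U : Matrix (Fin d) (Fin d) ℂ) * (U : Matrix (Fin d) (Fin d) ℂ) = 1 :=
    Unitary.coe_star_mul_self U
  calc x = (star (U : Matrix (Fin d) (Fin d) ℂ) * (U : Matrix (Fin d) (Fin d) ℂ)).mulVec x := by
        rw [h1, Matrix.one_mulVec]
    _ = 0 := by rw [← Matrix.mulVec_mulVec, h, Matrix.mulVec_zero]

/-- the action of `G` on the nonzero vectors over `k` -/
@[reducible] private noncomputable def key_act {k : Type} [NormedField k] (σ : ℂ →+* k) {G : Type} [Group G]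
    {d : ℕ} (R : G →* Matrix (Fin d) (Fin d) ℂ) : MulAction G {y : Fin d → k // y ≠ 0} where
  smul g y := ⟨(σ.mapMatrix (R g)).mulVec y.1, by
    intro h
    apply y.2
    have h1 : σ.mapMatrix (R g⁻¹) * σ.mapMatrix (R g) = 1 := by
      rw [← map_mul, ← map_mul, inv_mul_cancel, map_one, map_one]
    calc y.1 = (σ.mapMatrix (R g⁻¹) * σ.mapMatrix (R g)).mulVec y.1 := by
          rw [h1, Matrix.one_mulVec]
      _ = 0 := by rw [← Matrix.mulVec_mulVec, h, Matrix.mulVec_zero]⟩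
  one_smul y := by
    apply Subtype.ext
    change (σ.mapMatrix (R 1)).mulVec y.1 = y.1
    rw [map_one, map_one, Matrix.one_mulVec]
  mul_smul a b y := by
    apply Subtype.ext
    change (σ.mapMatrix (R (a * b))).mulVec y.1 =
      (σ.mapMatrix (R a)).mulVec ((σ.mapMatrix (R b)).mulVec y.1)
    rw [map_mul, map_mul, Matrix.mulVec_mulVec]

/-- Strongly irreducible unitary representations of amenable groups: the quotients of the eigenvalues are roots of unity.  Otherwise `exists_norm_ne_one` for `z / w` gives `σ`, `exists_dom` gives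
`P`, `Q`, `exists_trap` gives `H`, `exists_delta` gives `δ` and `exists_dom` gives `j`; apply `reiter_action` to `X = {y : Fin d → k // y ≠ 0}` with the action `g • y = σ(π g) y`,
`N = {‖σP y‖ < δ ‖σQ y‖}`, `B = {‖σQ y‖ < δ ‖σP y‖}` (disjoint as `δ ≤ 1`) and `t = g ^ j`. -/
theorem key {G : Type} [Group G] (hR : Reiter G) {d : ℕ}
    (π : G →* unitary (Matrix (Fin d) (Fin d) ℂ))
    (hirr : StrIrr ((unitary (Matrix (Fin d) (Fin d) ℂ)).subtype.comp π)) (g : G) (z w : ℂ)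
    (hz : IsEig (π g : Matrix (Fin d) (Fin d) ℂ) z)
    (hw : IsEig (π g : Matrix (Fin d) (Fin d) ℂ) w) : ∃ k : ℕ, 0 < k ∧ z ^ k = w ^ k := by
  by_contra hcon
  push Not at hcon
  have hz0 := key_eig_ne_zero (π g) z hz
  have hw0 := key_eig_ne_zero (π g) w hw
  obtain ⟨k, inst, σ, hσ⟩ := exists_norm_ne_one (z / w) (div_ne_zero hz0 hw0) (by
    intro j hj h
    apply hcon j hj
    rw [div_pow, div_eq_one_iff_eq (pow_ne_zero _ hw0)] at h
    exact h)
  have hσw : σ w ≠ 0 := (map_ne_zero σ).mpr hw0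
  have hne : ‖σ z‖ ≠ ‖σ w‖ := by
    intro h
    apply hσ
    rw [map_div₀, norm_div, h, div_self]
    exact norm_ne_zero_iff.mpr hσw
  set R : G →* Matrix (Fin d) (Fin d) ℂ :=
    (unitary (Matrix (Fin d) (Fin d) ℂ)).subtype.comp π with hRdef
  obtain ⟨P, Q, hP, hQ, hdom⟩ := exists_dom σ (π g : Matrix (Fin d) (Fin d) ℂ) (π g).2 z w hz hw hne
  obtain ⟨H, hH⟩ := exists_trap R hirr P Q hP hQ
  obtain ⟨δ, hδ0, hδ1, hδ⟩ := exists_delta σ R P Q H hH
  obtain ⟨j, hj⟩ := hdom δ hδ0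
  let act : MulAction G {y : Fin d → k // y ≠ 0} := key_act σ R
  have hsm : ∀ (a : G) (y : {y : Fin d → k // y ≠ 0}),
      (a • y).1 = (σ.mapMatrix (R a)).mulVec y.1 := fun a y => rfl
  have : Nonempty {y : Fin d → k // y ≠ 0} := by
    obtain ⟨x, hx, -⟩ := hz
    obtain ⟨i, hi⟩ : ∃ i, x i ≠ 0 := by
      by_contra h
      push Not at h
      exact hx (funext h)
    refine ⟨⟨fun _ => 1, fun h => ?_⟩⟩
    exact one_ne_zero (congrFun h i)
  obtain ⟨y, hy⟩ := reiter_action hR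
    {y : {y : Fin d → k // y ≠ 0} |
      ‖(σ.mapMatrix P).mulVec y.1‖ < δ * ‖(σ.mapMatrix Q).mulVec y.1‖}
    {y : {y : Fin d → k // y ≠ 0} |
      ‖(σ.mapMatrix Q).mulVec y.1‖ < δ * ‖(σ.mapMatrix P).mulVec y.1‖}
    (by
      rw [Set.disjoint_left]
      intro y h1 h2
      replace h1 : ‖(σ.mapMatrix P).mulVec y.1‖ < δ * ‖(σ.mapMatrix Q).mulVec y.1‖ := h1
      replace h2 : ‖(σ.mapMatrix Q).mulVec y.1‖ < δ * ‖(σ.mapMatrix P).mulVec y.1‖ := h2
      have e1 : δ * ‖(σ.mapMatrix Q).mulVec y.1‖ ≤ ‖(σ.mapMatrix Q).mulVec y.1‖ :=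
        mul_le_of_le_one_left (norm_nonneg _) hδ1
      have e2 : δ * ‖(σ.mapMatrix P).mulVec y.1‖ ≤ ‖(σ.mapMatrix P).mulVec y.1‖ :=
        mul_le_of_le_one_left (norm_nonneg _) hδ1
      linarith)
    (g ^ j)
    (by
      intro y
      rcases hj y.1 y.2 with h | h
      · exact Or.inl h
      · refine Or.inr ?_
        change ‖(σ.mapMatrix Q).mulVec ((g ^ j) • y).1‖ <
          δ * ‖(σ.mapMatrix P).mulVec ((g ^ j) • y).1‖
        rw [hsm, map_pow]
        exact h)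
    H
  obtain ⟨h, hh, hn⟩ := hδ y.1 y.2
  apply hn
  rcases hy h hh with h1 | h1
  · left
    exact h1
  · right
    exact h1

end Pool.Agent.LibTA98
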