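import Pool.Agent.LibTA98.Defs
set_option autoImplicit false
namespace Pool.Agent.LibTA98
open Cardinal

private theorem padicCard_mk_padic_le (p : ℕ) [Fact p.Prime] : #ℚ_[p] ≤ 𝔠 := by
  have h1 : #ℚ_[p] ≤ #(CauSeq ℚ (padicNorm p)) :=
    Cardinal.mk_le_of_surjective (f := fun s : CauSeq ℚ (padicNorm p) => (Quotient.mk'' s : ℚ_[p]))
      Quotient.mk''_surjective
  have h2 : #(CauSeq ℚ (padicNorm p)) ≤ #(ℕ → ℚ) :=
    Cardinal.mk_le_of_injective (f := fun s : CauSeq ℚ (padicNorm p) => (s : ℕ → ℚ))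
      Subtype.coe_injective
  have h3 : #(ℕ → ℚ) = 𝔠 := by
    rw [← Cardinal.power_def, Cardinal.mk_nat, Cardinal.mkRat, Cardinal.aleph0_power_aleph0]
  exact h1.trans (h2.trans h3.le)

/-- `#(PadicAlgCl p) = #ℂ`.  `#ℚ_[p] ≥ 𝔠` by `continuum_le_cardinal_of_nontriviallyNormedField`, `#ℚ_[p] ≤ #(ℕ → ℚ) = 𝔠` (Cauchy sequences), algebraic extension:
`Algebra.IsAlgebraic.cardinalMk_le_max`; `Cardinal.mk_complex`. -/
theorem mk_padicAlgCl (p : ℕ) [Fact p.Prime] : #(PadicAlgCl p) = #ℂ := by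
  rw [Cardinal.mk_complex]
  apply le_antisymm
  · have h := Algebra.IsAlgebraic.cardinalMk_le_max ℚ_[p] (PadicAlgCl p)
    exact h.trans (max_le (padicCard_mk_padic_le p) Cardinal.aleph0_le_continuum)
  · have h1 : 𝔠 ≤ #ℚ_[p] := continuum_le_cardinal_of_nontriviallyNormedField ℚ_[p]
    exact h1.trans (Cardinal.mk_le_of_injective (algebraMap ℚ_[p] (PadicAlgCl p)).injective)

end Pool.Agent.LibTA98
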