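import Pool.Agent.LibTA98.Defs
set_option autoImplicit false
namespace Pool.Agent.LibTA98
open Polynomial

private def padicRoot_ring (p : ℕ) [Fact p.Prime] : Subring (PadicAlgCl p) where
  carrier := {x | ‖x‖ ≤ 1}
  mul_mem' := by
    intro a b ha hb
    simp only [Set.mem_ofPred_eq] at *
    rw [norm_mul]
    exact mul_le_one₀ ha (norm_nonneg _) hb
  one_mem' := by simp
  add_mem' := by
    intro a b ha hb
    simp only [Set.mem_ofPred_eq] at *
    exact (IsUltrametricDist.norm_add_le_max a b).trans (max_le ha hb)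
  zero_mem' := by simp
  neg_mem' := by
    intro a ha
    simp only [Set.mem_ofPred_eq] at *
    rwa [norm_neg]

private theorem padicRoot_coeff {p : ℕ} [Fact p.Prime] (P : (PadicAlgCl p)[X]) (hP : P.Monic)
    (h : ∀ r ∈ P.roots, ‖r‖ ≤ 1) (i : ℕ) : ‖P.coeff i‖ ≤ 1 := by
  have hs : P.Splits := IsAlgClosed.splits P
  have hprod : P = (P.roots.map fun a => X - C a).prod := by
    have := hs.eq_prod_roots
    rw [hP.leadingCoeff, C_1, one_mul] at this
    exact this
  have hl : P ∈ Polynomial.lifts (padicRoot_ring p).subtype := by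
    rw [hprod]
    refine Submonoid.multiset_prod_mem (Polynomial.lifts (padicRoot_ring p).subtype).toSubmonoid _ ?_
    intro a ha
    obtain ⟨r, hr, rfl⟩ := Multiset.mem_map.1 ha
    refine ⟨X - C (⟨r, h r hr⟩ : padicRoot_ring p), ?_⟩
    simp
  rw [Polynomial.lifts_iff_coeff_lifts] at hl
  obtain ⟨y, hy⟩ := hl i
  rw [← hy]
  exact y.2

private theorem padicRoot_int (q : ℚ) (h : ∀ (p : ℕ) (_ : Fact p.Prime), ‖(q : ℚ_[p])‖ ≤ 1) :
    q.den = 1 := by
  by_contra hne
  obtain ⟨p, hp, hpd⟩ := Nat.exists_prime_and_dvd hne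
  have : Fact p.Prime := ⟨hp⟩
  have h1 := h p ⟨hp⟩
  have h2 : ¬ (p : ℤ) ∣ q.num := by
    intro h3
    have h4 : p ∣ q.num.natAbs := by
      exact Int.natCast_dvd.1 h3
    have h5 := Nat.dvd_gcd h4 hpd
    rw [q.reduced.gcd_eq_one] at h5
    exact hp.one_lt.ne' (Nat.dvd_one.1 h5)
  have h3 : ‖(q.num : ℚ_[p])‖ = 1 := by
    have h4 : ‖((q.num : ℤ) : ℚ_[p])‖ ≤ 1 := Padic.norm_int_le_one _
    have h5 : ¬ ‖((q.num : ℤ) : ℚ_[p])‖ < 1 := by
      intro h6
      exact h2 (Padic.norm_intCast_lt_one_iff.1 h6)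
    linarith [not_lt.1 h5]
  have h4 : ‖((q.den : ℤ) : ℚ_[p])‖ < 1 := by
    rw [Padic.norm_intCast_lt_one_iff]
    exact_mod_cast hpd
  have h5 : (q : ℚ_[p]) * ((q.den : ℤ) : ℚ_[p]) = ((q.num : ℤ) : ℚ_[p]) := by
    have := Rat.mul_den_eq_num q
    have h6 : ((q * (q.den : ℚ) : ℚ) : ℚ_[p]) = ((q.num : ℚ) : ℚ_[p]) := by rw [this]
    push_cast at h6 ⊢
    exact h6
  have h6 : ‖(q : ℚ_[p])‖ * ‖((q.den : ℤ) : ℚ_[p])‖ = 1 := by
    rw [← norm_mul, h5, h3]
  nlinarith [norm_nonneg (q : ℚ_[p]), norm_nonneg ((q.den : ℤ) : ℚ_[p])]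

/-- An algebraic number `z` which is not an algebraic integer has a conjugate of norm greater than `1` in some `PadicAlgCl p`.  Let `f = minpoly ℚ z`.  If all the roots of `f` in all the
`PadicAlgCl p` have norm `≤ 1` then so have its coefficients (they are up to sign the elementary symmetric functions of the roots, `Polynomial.coeff_eq_esymm_roots_of_card`, ultrametric
norm; or: `f` splits as a product of monic linear factors with coefficients in the subring `{x | ‖x‖ ≤ 1}`), i.e. they are `p`-integral for all `p` (`PadicAlgCl.norm_extends`), so `f` has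
integral coefficients and `z` is integral.  Every root `r` of `f` satisfies `aeval r g = 0 ↔ f ∣ g ↔ aeval z g = 0` (`f` is irreducible, `minpoly.dvd_iff`). -/
theorem exists_padic_root (z : ℂ) (hz : IsAlgebraic ℚ z) (hz' : ¬ IsIntegral ℤ z) :
    ∃ (p : ℕ) (_ : Fact p.Prime) (r : PadicAlgCl p),
      (∀ f : ℚ[X], aeval z f = 0 ↔ aeval r f = 0) ∧ 1 < ‖r‖ := by
  by_contra hcon
  apply hz'
  have hzi : IsIntegral ℚ z := hz.isIntegral
  have hirr : Irreducible (minpoly ℚ z) := minpoly.irreducible hzi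
  have hmonic : (minpoly ℚ z).Monic := minpoly.monic hzi
  have hden : ∀ i : ℕ, ((minpoly ℚ z).coeff i).den = 1 := by
    intro i
    refine padicRoot_int _ ?_
    intro p hp
    have h1 : ‖((minpoly ℚ z).map (algebraMap ℚ (PadicAlgCl p))).coeff i‖ ≤ 1 := by
      refine padicRoot_coeff _ (hmonic.map _) ?_ i
      intro r hr
      by_contra hlt
      refine hcon ⟨p, hp, r, ?_, not_le.1 hlt⟩
      have hr0 : aeval r (minpoly ℚ z) = 0 := by
        have h2 := (Polynomial.mem_roots'.1 hr).2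
        rw [IsRoot.def, eval_map, ← aeval_def] at h2
        exact h2
      have heq : minpoly ℚ z = minpoly ℚ r :=
        minpoly.eq_of_irreducible_of_monic hirr hr0 hmonic
      intro g
      constructor
      · intro hg
        have h3 := minpoly.dvd ℚ z hg
        rw [heq] at h3
        exact (minpoly.dvd_iff).1 h3
      · intro hg
        have h3 := minpoly.dvd ℚ r hg
        rw [← heq] at h3
        exact (minpoly.dvd_iff).1 h3
    rw [coeff_map] at h1
    have h2 : (algebraMap ℚ (PadicAlgCl p)) ((minpoly ℚ z).coeff i) =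
        (algebraMap ℚ_[p] (PadicAlgCl p)) (((minpoly ℚ z).coeff i : ℚ) : ℚ_[p]) := by
      rw [eq_ratCast, map_ratCast]
    rw [h2] at h1
    rwa [PadicAlgCl.norm_extends] at h1
  have hlift : minpoly ℚ z ∈ Polynomial.lifts (algebraMap ℤ ℚ) := by
    rw [Polynomial.lifts_iff_coeff_lifts]
    intro i
    refine ⟨((minpoly ℚ z).coeff i).num, ?_⟩
    rw [eq_intCast]
    exact (Rat.den_eq_one_iff _).1 (hden i)
  obtain ⟨F, hF1, -, hF3⟩ := Polynomial.lifts_and_natDegree_eq_and_monic hlift hmonic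
  refine ⟨F, hF3, ?_⟩
  have h1 : aeval z (minpoly ℚ z) = 0 := minpoly.aeval ℚ z
  rw [← hF1, aeval_def, eval₂_map] at h1
  have h2 : (algebraMap ℚ ℂ).comp (algebraMap ℤ ℚ) = algebraMap ℤ ℂ := RingHom.ext_int _ _
  rw [h2] at h1
  exact h1

end Pool.Agent.LibTA98
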