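import Pool.Agent.LibTA98.Defs
set_option autoImplicit false
namespace Pool.Agent.LibTA98

open Polynomial Matrix ComplexOrder in
private theorem Spec_nil {d : ℕ} (B : Matrix (Fin d) (Fin d) ℂ) (hB : Bᴴ = B) (j : ℕ)
    (h : B ^ (2 ^ j) = 0) : B = 0 := by
  induction j with
  | zero => simpa using h
  | succ j ih =>
    apply ih
    rw [pow_succ, mul_comm, two_mul, pow_add] at h
    have h1 : (B ^ (2 ^ j))ᴴ * B ^ (2 ^ j) = 0 := by
      rw [Matrix.conjTranspose_pow, hB]
      exact h
    exact Matrix.conjTranspose_mul_self_eq_zero.1 h1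

open Polynomial Matrix ComplexOrder in
private theorem Spec_normal {d : ℕ} (A : Matrix (Fin d) (Fin d) ℂ) (hA : Commute Aᴴ A) (N : ℕ)
    (h : A ^ N = 0) : A = 0 := by
  have h1 : (Aᴴ * A) = 0 := by
    refine Spec_nil (Aᴴ * A) (by rw [conjTranspose_mul, conjTranspose_conjTranspose]) N ?_
    rw [hA.mul_pow, show 2 ^ N = N + (2 ^ N - N) from
      (Nat.add_sub_cancel' Nat.lt_two_pow_self.le).symm, pow_add A, h, zero_mul, mul_zero]
  exact Matrix.conjTranspose_mul_self_eq_zero.1 h1

open Polynomial in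
private theorem Spec_comm {R : Type} [Ring R] [Algebra ℂ R] (x y : R) (h : Commute x y) (p : ℂ[X]) :
    Commute (aeval x p) y := by
  induction p using Polynomial.induction_on' with
  | add p q hp hq =>
    rw [map_add]
    exact hp.add_left hq
  | monomial n a =>
    rw [aeval_monomial]
    exact (Algebra.commute_algebraMap_left a y).mul_left (h.pow_left n)

open Polynomial in
private theorem Spec_dvd (q : ℂ[X]) (M : Multiset ℂ) (h : ∀ a ∈ M, (X - C a) ∣ q) :
    (M.map fun a => X - C a).prod ∣ q ^ (Multiset.card M) := by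
  induction M using Multiset.induction_on with
  | empty => simp
  | cons a M ih =>
    rw [Multiset.map_cons, Multiset.prod_cons, Multiset.card_cons, pow_succ, mul_comm]
    exact mul_dvd_mul (ih fun b hb => h b (Multiset.mem_cons_of_mem hb))
      (h a (Multiset.mem_cons_self a M))

open Polynomial Matrix in
/-- a unitary matrix is killed by the product of the `X - a`, `a` a root of the minimal polynomial -/
private theorem Spec_nodal {d : ℕ} (U : Matrix (Fin d) (Fin d) ℂ)
    (hU : U ∈ unitary (Matrix (Fin d) (Fin d) ℂ)) :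
    aeval U (∏ a ∈ (minpoly ℂ U).roots.toFinset, (X - C a)) = 0 := by
  set q : ℂ[X] := ∏ a ∈ (minpoly ℂ U).roots.toFinset, (X - C a) with hq
  have hint : IsIntegral ℂ U := Algebra.IsIntegral.isIntegral U
  have hcomm : Commute U Uᴴ := by
    have h1 := (Unitary.mem_iff.1 hU).1
    have h2 := (Unitary.mem_iff.1 hU).2
    rw [Matrix.star_eq_conjTranspose] at h1 h2
    rw [Commute, SemiconjBy, h1, h2]
  refine Spec_normal _ ?_ (Multiset.card (minpoly ℂ U).roots) ?_
  · have h1 : Commute (aeval U q) Uᴴ := Spec_comm U Uᴴ hcomm q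
    have h2 : Commute U (aeval U q)ᴴ := by
      have h3 := congrArg Matrix.conjTranspose h1.eq
      rw [conjTranspose_mul, conjTranspose_mul, conjTranspose_conjTranspose] at h3
      exact h3
    exact (Spec_comm U _ h2 q).symm
  · rw [← map_pow]
    have h1 : minpoly ℂ U = ((minpoly ℂ U).roots.map fun a => X - C a).prod :=
      (IsAlgClosed.splits (minpoly ℂ U)).eq_prod_roots_of_monic (minpoly.monic hint)
    have h2 : minpoly ℂ U ∣ q ^ (Multiset.card (minpoly ℂ U).roots) := by
      conv_lhs => rw [h1]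
      apply Spec_dvd
      intro a ha
      exact Finset.dvd_prod_of_mem (fun a => (X - C a : ℂ[X])) (Multiset.mem_toFinset.2 ha)
    obtain ⟨p, hp⟩ := h2
    rw [hp, map_mul, minpoly.aeval, zero_mul]

open Polynomial in
/-- The spectral idempotents of a unitary matrix: distinct eigenvalues `l i`, `U = ∑ l i • E i`.  (A unitary matrix is diagonalizable: compare `vab_max` in LibCS44/VAb, or use that the minimal
polynomial of a normal matrix is squarefree, or `Matrix.IsHermitian.spectral_theorem` for commuting hermitian parts; `E i` = Lagrange interpolation polynomials in `U`.) -/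
theorem exists_spec {d : ℕ} (U : Matrix (Fin d) (Fin d) ℂ)
    (hU : U ∈ unitary (Matrix (Fin d) (Fin d) ℂ)) :
    ∃ (r : ℕ) (l : Fin r → ℂ) (E : Fin r → Matrix (Fin d) (Fin d) ℂ), Function.Injective l ∧
      (∀ i, l i ≠ 0) ∧ (∀ i, E i ≠ 0) ∧ (∀ i j, E i * E j = if i = j then E i else 0) ∧
      ∑ i, E i = 1 ∧ U = ∑ i, l i • E i := by
  classical
  set s := (minpoly ℂ U).roots.toFinset with hs
  have hint : IsIntegral ℂ U := Algebra.IsIntegral.isIntegral U
  have hnod := Spec_nodal U hU
  rw [← hs] at hnod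
  rcases s.eq_empty_or_nonempty with hse | hsne
  · -- the matrix ring is trivial
    rw [hse, Finset.prod_empty, map_one] at hnod
    have hz : ∀ M : Matrix (Fin d) (Fin d) ℂ, M = 0 := fun M => by
      rw [← one_mul M, hnod, zero_mul]
    exact ⟨0, fun i => i.elim0, fun i => i.elim0, fun i => i.elim0, fun i => i.elim0,
      fun i => i.elim0, fun i => i.elim0, by rw [hz 1]; simp, by rw [hz U]; simp⟩
  let F : ℂ → Matrix (Fin d) (Fin d) ℂ := fun a => aeval U (Lagrange.basis s id a)
  have hroot : ∀ a ∈ s, (minpoly ℂ U).IsRoot a := by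
    intro a ha
    rw [hs, Multiset.mem_toFinset] at ha
    exact isRoot_of_mem_roots ha
  have hF0 : ∀ a ∈ s, F a ≠ 0 := by
    intro a ha h0
    obtain ⟨p, hp⟩ := minpoly.dvd ℂ U h0
    have h1 : eval a (Lagrange.basis s id a) = 1 :=
      Lagrange.eval_basis_self (v := id) Function.injective_id.injOn ha
    rw [hp, eval_mul, (hroot a ha).eq_zero, zero_mul] at h1
    exact zero_ne_one h1
  have hsum : ∑ a ∈ s, F a = 1 := by
    rw [← map_sum, Lagrange.sum_basis Function.injective_id.injOn hsne, map_one]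
  have hbas : ∀ a ∈ s, ∃ c : ℂ[X], Lagrange.basis s id a = c * ∏ b ∈ s.erase a, (X - C b) := by
    intro a ha
    refine ⟨∏ b ∈ s.erase a, C ((a - b)⁻¹), ?_⟩
    rw [← Finset.prod_mul_distrib]
    rfl
  have hUF : ∀ a ∈ s, U * F a = a • F a := by
    intro a ha
    obtain ⟨c, hc⟩ := hbas a ha
    have h1 : (X - C a) * Lagrange.basis s id a = c * ∏ b ∈ s, (X - C b) := by
      rw [← Finset.mul_prod_erase s (fun b => (X - C b : ℂ[X])) ha, hc]
      ring
    have h2 := congrArg (aeval U) h1
    rw [map_mul, map_mul, hnod, mul_zero, map_sub, aeval_X, aeval_C, sub_mul, sub_eq_zero] at h2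
    rw [show F a = aeval U (Lagrange.basis s id a) from rfl, h2, Algebra.smul_def]
  have hFF : ∀ a ∈ s, ∀ b ∈ s, a ≠ b → F a * F b = 0 := by
    intro a ha b hb hab
    obtain ⟨c, hc⟩ := hbas a ha
    obtain ⟨e, he⟩ := hbas b hb
    have h1 : Lagrange.basis s id a * Lagrange.basis s id b =
        (c * e * ∏ x ∈ (s.erase b).erase a, (X - C x)) * ∏ x ∈ s, (X - C x) := by
      rw [← Finset.mul_prod_erase s (fun b => (X - C b : ℂ[X])) ha, hc, he,
        ← Finset.mul_prod_erase (s.erase b) (fun b => (X - C b : ℂ[X]))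
          (Finset.mem_erase.2 ⟨hab, ha⟩)]
      ring
    have h2 := congrArg (aeval U) h1
    rw [map_mul, map_mul, hnod, mul_zero] at h2
    exact h2
  have hFs : ∀ a ∈ s, F a * F a = F a := by
    intro a ha
    have h1 : F a * ∑ b ∈ s, F b = F a := by rw [hsum, mul_one]
    rw [Finset.mul_sum, Finset.sum_eq_single_of_mem a ha
      (fun b hb hab => hFF a ha b hb hab.symm)] at h1
    exact h1
  have hUs : U = ∑ a ∈ s, a • F a := by
    rw [← Finset.sum_congr rfl hUF, ← Finset.mul_sum, hsum, mul_one]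
  let e := s.equivFin.symm
  refine ⟨s.card, fun i => (e i : ℂ), fun i => F (e i), ?_, ?_, ?_, ?_, ?_, ?_⟩
  · intro i j hij
    exact e.injective (Subtype.ext hij)
  · intro i h0
    apply hF0 (e i) (e i).2
    have h1 := hUF (e i) (e i).2
    have h0' : (e i : ℂ) = 0 := h0
    have h1' : U * F (e i) = 0 := by rw [h1]; conv_lhs => rw [h0']; rw [zero_smul]
    have h2 := (Unitary.mem_iff.1 hU).1
    have h3 : F (e i) = star U * (U * F (e i)) := by rw [← mul_assoc, h2, one_mul]
    rw [h3, h1', mul_zero]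
  · intro i
    exact hF0 (e i) (e i).2
  · intro i j
    by_cases hij : i = j
    · rw [if_pos hij, hij]
      exact hFs (e j) (e j).2
    · rw [if_neg hij]
      exact hFF (e i) (e i).2 (e j) (e j).2 fun h => hij (e.injective (Subtype.ext h))
  · rw [e.sum_comp (fun a : s => F a), Finset.sum_coe_sort s F, hsum]
  · rw [e.sum_comp (fun a : s => (a : ℂ) • F a), Finset.sum_coe_sort s fun a => a • F a]
    exact hUs

private theorem Spec_EU {d r : ℕ} {U : Matrix (Fin d) (Fin d) ℂ} {l : Fin r → ℂ}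
    {E : Fin r → Matrix (Fin d) (Fin d) ℂ} (hE : ∀ i j, E i * E j = if i = j then E i else 0)
    (hU : U = ∑ i, l i • E i) (i : Fin r) : E i * U = l i • E i := by
  rw [hU, Finset.mul_sum, Finset.sum_eq_single i]
  · rw [mul_smul_comm, hE, if_pos rfl]
  · intro j _ hj
    rw [mul_smul_comm, hE, if_neg hj.symm, smul_zero]
  · intro h
    exact absurd (Finset.mem_univ i) h

private theorem Spec_UE {d r : ℕ} {U : Matrix (Fin d) (Fin d) ℂ} {l : Fin r → ℂ}
    {E : Fin r → Matrix (Fin d) (Fin d) ℂ} (hE : ∀ i j, E i * E j = if i = j then E i else 0)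
    (hU : U = ∑ i, l i • E i) (i : Fin r) : U * E i = l i • E i := by
  rw [hU, Finset.sum_mul, Finset.sum_eq_single i]
  · rw [smul_mul_assoc, hE, if_pos rfl]
  · intro j _ hj
    rw [smul_mul_assoc, hE, if_neg hj, smul_zero]
  · intro h
    exact absurd (Finset.mem_univ i) h

/-- consequences: the eigenvalues are the `l i`; powers -/
theorem spec_eig {d r : ℕ} {U : Matrix (Fin d) (Fin d) ℂ} {l : Fin r → ℂ}
    {E : Fin r → Matrix (Fin d) (Fin d) ℂ} (hE : ∀ i j, E i * E j = if i = j then E i else 0)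
    (h1 : ∑ i, E i = 1) (hU : U = ∑ i, l i • E i) (z : ℂ) (hz : IsEig U z) : ∃ i, l i = z := by
  obtain ⟨x, hx, hUx⟩ := hz
  by_contra hcon
  push Not at hcon
  apply hx
  have h2 : ∀ i, (E i).mulVec x = 0 := by
    intro i
    have h3 : (E i).mulVec (U.mulVec x) = l i • (E i).mulVec x := by
      rw [Matrix.mulVec_mulVec, Spec_EU hE hU i, Matrix.smul_mulVec]
    rw [hUx, Matrix.mulVec_smul] at h3
    have h4 : (z - l i) • (E i).mulVec x = 0 := by rw [sub_smul, h3, sub_self]
    rcases smul_eq_zero.1 h4 with h5 | h5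
    · exact absurd (sub_eq_zero.1 h5).symm (hcon i)
    · exact h5
  have h3 : x = (∑ i, E i).mulVec x := by rw [h1, Matrix.one_mulVec]
  rw [h3, Matrix.sum_mulVec]
  exact Finset.sum_eq_zero fun i _ => h2 i

theorem spec_pow {d r : ℕ} {U : Matrix (Fin d) (Fin d) ℂ} {l : Fin r → ℂ}
    {E : Fin r → Matrix (Fin d) (Fin d) ℂ} (hE : ∀ i j, E i * E j = if i = j then E i else 0)
    (h1 : ∑ i, E i = 1) (hU : U = ∑ i, l i • E i) (k : ℕ) : U ^ k = ∑ i, l i ^ k • E i := by
  induction k with
  | zero =>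
    rw [pow_zero, ← h1]
    exact Finset.sum_congr rfl fun i _ => by rw [pow_zero, one_smul]
  | succ k ih =>
    rw [pow_succ, ih, Finset.sum_mul]
    refine Finset.sum_congr rfl fun i _ => ?_
    rw [smul_mul_assoc, Spec_EU hE hU i, smul_smul, pow_succ]

theorem spec_isEig {d r : ℕ} {U : Matrix (Fin d) (Fin d) ℂ} {l : Fin r → ℂ}
    {E : Fin r → Matrix (Fin d) (Fin d) ℂ} (hE0 : ∀ i, E i ≠ 0)
    (hE : ∀ i j, E i * E j = if i = j then E i else 0) (hU : U = ∑ i, l i • E i) (i : Fin r) :
    IsEig U (l i) := by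
  obtain ⟨y, hy⟩ : ∃ y, (E i).mulVec y ≠ 0 := by
    by_contra hcon
    push Not at hcon
    apply hE0 i
    ext a b
    have := congrFun (hcon (Pi.single b 1)) a
    simpa using this
  refine ⟨(E i).mulVec y, hy, ?_⟩
  rw [Matrix.mulVec_mulVec, Spec_UE hE hU i, Matrix.smul_mulVec]

end Pool.Agent.LibTA98
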