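import Pool.Agent.LibTA98.BurnFin
import Pool.Agent.LibTA98.Spec
import Pool.Agent.LibCSA98.VaEA
import Pool.Agent.LibCS44.VA
set_option autoImplicit false
namespace Pool.Agent.LibTA98
open scoped Matrix.Norms.L2Operator

/-- torsion representations: elements within `1/4` of `1` commute: `burnside_finite` for the subgroup `Subgroup.closure {a, b}` and `Pool.Agent.LibCS15.ea_near_commute` for the finite group
`(Subgroup.closure {a, b}).map θ` and its inclusion (transported to operators as in LibCSA98/VaEA) -/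
theorem near_commute_torsion {G : Type} [Group G] {n : Type} [Fintype n] [DecidableEq n]
    (θ : G →* unitary (Matrix n n ℂ)) (ht : ∀ g, ∃ k : ℕ, 0 < k ∧ (θ g : Matrix n n ℂ) ^ k = 1)
    (a b : G) (ha : ‖(θ a : Matrix n n ℂ) - 1‖ < 1 / 4) (hb : ‖(θ b : Matrix n n ℂ) - 1‖ < 1 / 4) :
    θ a * θ b = θ b * θ a := by
  classical
  have hfg : Group.FG (Subgroup.closure ({a, b} : Set G)) := by
    rw [Group.fg_iff_subgroup_fg]
    exact ⟨{a, b}, by simp⟩
  have hfin : (Set.range (θ.comp (Subgroup.closure ({a, b} : Set G)).subtype)).Finite :=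
    burnside_finite _ (fun g => ht g)
  have hF : Finite (θ.comp (Subgroup.closure ({a, b} : Set G)).subtype).range := by
    have := hfin.to_subtype
    exact this
  have hEA : Pool.Agent.LibCS15.ElementaryAmenable
      (θ.comp (Subgroup.closure ({a, b} : Set G)).subtype).range :=
    Pool.Agent.LibCS15.ElementaryAmenable.of_finite _
  have hma : a ∈ Subgroup.closure ({a, b} : Set G) := Subgroup.subset_closure (by simp)
  have hmb : b ∈ Subgroup.closure ({a, b} : Set G) := Subgroup.subset_closure (by simp)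
  exact Pool.Agent.LibCSA98.near_commute_ea hEA
    (θ.comp (Subgroup.closure ({a, b} : Set G)).subtype).range.subtype
    ⟨θ a, ⟨⟨a, hma⟩, rfl⟩⟩ ⟨θ b, ⟨⟨b, hmb⟩, rfl⟩⟩ ha hb

/-- if the quotients of the eigenvalues of a unitary matrix are roots of unity then some power is scalar (`exists_spec`, `spec_pow`) -/
theorem exists_pow_scalar {d : ℕ} (U : Matrix (Fin d) (Fin d) ℂ)
    (hU : U ∈ unitary (Matrix (Fin d) (Fin d) ℂ))
    (h : ∀ z w, IsEig U z → IsEig U w → ∃ k : ℕ, 0 < k ∧ z ^ k = w ^ k) :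
    ∃ (k : ℕ) (c : ℂ), 0 < k ∧ U ^ k = c • 1 := by
  obtain ⟨r, l, E, -, -, hE0, hE, h1, hUE⟩ := exists_spec U hU
  rcases Nat.eq_zero_or_pos r with hr | hr
  · subst hr
    refine ⟨1, 0, one_pos, ?_⟩
    rw [pow_one, zero_smul]
    have h2 : (1 : Matrix (Fin d) (Fin d) ℂ) = 0 := by
      rw [← h1]
      exact Finset.sum_empty
    rw [← mul_one U, h2, mul_zero]
  · have hk : ∀ i, ∃ k : ℕ, 0 < k ∧ l i ^ k = l ⟨0, hr⟩ ^ k := fun i =>
      h _ _ (spec_isEig hE0 hE hUE i) (spec_isEig hE0 hE hUE ⟨0, hr⟩)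
    choose k hk0 hk1 using hk
    refine ⟨∏ i, k i, l ⟨0, hr⟩ ^ (∏ i, k i), Finset.prod_pos (fun i _ => hk0 i), ?_⟩
    rw [spec_pow hE h1 hUE, ← h1, Finset.smul_sum]
    refine Finset.sum_congr rfl (fun i _ => ?_)
    congr 1
    obtain ⟨m, hm⟩ := Finset.dvd_prod_of_mem k (Finset.mem_univ i)
    rw [hm, pow_mul, pow_mul, hk1 i]

end Pool.Agent.LibTA98
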