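import Pool.Agent.LibTA98.EquivAB
import Pool.Agent.LibTA98.PadicCard
import Pool.Agent.LibTA98.PadicRoot
set_option autoImplicit false
namespace Pool.Agent.LibTA98
open Polynomial Cardinal

/-- Absolute values.  If `‖z‖ ≠ 1` take the identity.  If `z` is transcendental: `exists_ringEquiv_map` for `a = z`, `b = 2 z` (both are roots of the zero polynomial only).  If `z` is an
algebraic integer: by Kronecker (`NumberField.Embeddings.pow_eq_one_of_norm_eq_one` for the number field `ℚ⟮z⟯`) some embedding `φ : ℚ⟮z⟯ →+* ℂ` has `‖φ z‖ ≠ 1`; `b = φ z`.  Otherwise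
`exists_padic_root`, `mk_padicAlgCl` and `exists_ringEquiv_map`. -/
theorem exists_norm_ne_one (z : ℂ) (hz0 : z ≠ 0) (hz : ∀ k : ℕ, 0 < k → z ^ k ≠ 1) :
    ∃ (k : Type) (_ : NormedField k) (σ : ℂ →+* k), ‖σ z‖ ≠ 1 := by
  have hC : ℵ₀ < #ℂ := by
    rw [mk_complex]
    exact aleph0_lt_continuum
  by_cases hn : ‖z‖ = 1
  swap
  · exact ⟨ℂ, inferInstance, RingHom.id ℂ, hn⟩
  by_cases halg : IsAlgebraic ℚ z
  swap
  · -- transcendental
    have h2 : ¬ IsAlgebraic ℚ (2 * z) := by
      intro h
      apply halg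
      have h3 : IsAlgebraic ℚ ((1 / 2 : ℚ) • (2 * z)) := h.smul (1 / 2 : ℚ)
      have h4 : ((1 / 2 : ℚ) • (2 * z)) = z := by
        rw [Algebra.smul_def]
        simp
      rwa [h4] at h3
    have hab : ∀ f : ℚ[X], aeval z f = 0 ↔ aeval (2 * z) f = 0 := by
      intro f
      constructor
      · intro h
        by_cases hf : f = 0
        · rw [hf, map_zero]
        · exact absurd ⟨f, hf, h⟩ halg
      · intro h
        by_cases hf : f = 0
        · rw [hf, map_zero]
        · exact absurd ⟨f, hf, h⟩ h2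
    obtain ⟨e, he⟩ := exists_ringEquiv_map hC rfl z (2 * z) hab
    refine ⟨ℂ, inferInstance, (e : ℂ →+* ℂ), ?_⟩
    change ‖e z‖ ≠ 1
    rw [he, norm_mul, hn]
    norm_num
  by_cases hint : IsIntegral ℤ z
  · -- algebraic integer
    have hfin : FiniteDimensional ℚ (IntermediateField.adjoin ℚ {z}) :=
      IntermediateField.adjoin.finiteDimensional halg.isIntegral
    have hnf : NumberField (IntermediateField.adjoin ℚ {z}) := { to_finiteDimensional := hfin }
    let x : IntermediateField.adjoin ℚ {z} := IntermediateField.AdjoinSimple.gen ℚ z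
    have hxz : (x : ℂ) = z := IntermediateField.AdjoinSimple.coe_gen ℚ z
    have hxint : IsIntegral ℤ x := by
      rw [← isIntegral_algHom_iff (f := (IntermediateField.val
        (IntermediateField.adjoin ℚ {z})).restrictScalars ℤ)
        (IntermediateField.val (IntermediateField.adjoin ℚ {z})).injective]
      change IsIntegral ℤ (x : ℂ)
      rwa [hxz]
    have hex : ∃ φ : IntermediateField.adjoin ℚ {z} →+* ℂ, ‖φ x‖ ≠ 1 := by
      by_contra hcon
      push Not at hcon
      obtain ⟨n, hn0, hxn⟩ :=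
        NumberField.Embeddings.pow_eq_one_of_norm_eq_one (IntermediateField.adjoin ℚ {z}) ℂ
          hxint hcon
      apply hz n hn0
      rw [← hxz, ← SubmonoidClass.coe_pow, hxn]
      rfl
    obtain ⟨φ, hφ⟩ := hex
    have hab : ∀ f : ℚ[X], aeval z f = 0 ↔ aeval (φ x) f = 0 := by
      intro f
      have h0 : aeval (x : ℂ) f = ((aeval x f : IntermediateField.adjoin ℚ {z}) : ℂ) :=
        aeval_algHom_apply (IntermediateField.val (IntermediateField.adjoin ℚ {z})) x f
      have h1 : aeval z f = ((aeval x f : IntermediateField.adjoin ℚ {z}) : ℂ) :=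
        (congrArg (fun y : ℂ => aeval y f) hxz.symm).trans h0
      have h2 : aeval (φ x) f = φ (aeval x f) :=
        aeval_algHom_apply (φ.toRatAlgHom) x f
      rw [h1, h2, map_eq_zero, ZeroMemClass.coe_eq_zero]
    obtain ⟨e, he⟩ := exists_ringEquiv_map hC rfl z (φ x) hab
    refine ⟨ℂ, inferInstance, (e : ℂ →+* ℂ), ?_⟩
    change ‖e z‖ ≠ 1
    rw [he]
    exact hφ
  · obtain ⟨p, hp, r, hr, hr1⟩ := exists_padic_root z halg hint
    obtain ⟨e, he⟩ := exists_ringEquiv_map hC (mk_padicAlgCl p).symm z r hr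
    refine ⟨PadicAlgCl p, inferInstance, (e : ℂ →+* PadicAlgCl p), ?_⟩
    change ‖e z‖ ≠ 1
    rw [he]
    exact ne_of_gt hr1

end Pool.Agent.LibTA98
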